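import Mathlib
import Pool.Agent.Results.MP_5d2531_al.BlockTriangular

/-!
# Power-central polynomials contain at least `2 ^ n` words of each content that occurs

`K` is any infinite field and `n ≥ 3`. Let `f` be a polynomial without constant term such that some
power `f ^ ν`, `ν ≥ 1`, takes only scalar values on `M_n(K)`, or let `n` be an odd prime and `f` an
`n`-central polynomial. The value of `f` at lower bidiagonal matrices whose diagonals are
independent variables gives linear relations between the coefficients of `f`: if a word is cut at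
fewer than `n` letters and the pieces between are rearranged in all possible ways, then the sum of
the coefficients of the words obtained is zero. Hence, if a nonempty word occurs in `f`, then at
least `2 ^ n` of its rearrangements occur in `f`.
-/

set_option autoImplicit false

namespace Pool.Agent.Results.MP_5d2531_al.ExponentiallyManyWords

open Pool.Agent.H552R3.PC Pool.Agent.TH82.NC

/-- Every value of `f` on `n × n` matrices over `K` is a scalar matrix. -/
def ScalarValued {K : Type*} [Field K] {σ : Type*} (n : ℕ) (f : FreeAlgebra K σ) : Prop :=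
  ∀ X : σ → Matrix (Fin n) (Fin n) K, ∃ c : K, FreeAlgebra.lift K X f = Matrix.scalar (Fin n) c

/-- `f` is central for `M_n(K)`: all values are scalar and `f` is not identically zero. -/
def IsCentral {K : Type*} [Field K] {σ : Type*} (n : ℕ) (f : FreeAlgebra K σ) : Prop :=
  ScalarValued n f ∧ ∃ X : σ → Matrix (Fin n) (Fin n) K, FreeAlgebra.lift K X f ≠ 0

/-- `f` is `ν`-central for `M_n(K)`: `ν` is the least positive integer with `f ^ ν` central. -/
def IsNuCentral {K : Type*} [Field K] {σ : Type*} (n ν : ℕ) (f : FreeAlgebra K σ) : Prop :=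
  0 < ν ∧ IsCentral n (f ^ ν) ∧ ∀ μ : ℕ, 0 < μ → IsCentral n (f ^ μ) → ν ≤ μ

/-- The coefficient of the word `l` in `f`. -/
noncomputable def coef {K : Type*} [Field K] {σ : Type*} (f : FreeAlgebra K σ) (l : List σ) : K :=
  (FreeAlgebra.equivMonoidAlgebraFreeMonoid f).coeff (FreeMonoid.ofList l)

/-- `Cut m y k l`: the word `l` has the form `u_k y_{k-1} u_{k-1} ⋯ y_1 u_1 y_0 u_0`, where the
letters of the word `u_i` (with multiplicities) form the multiset `m i`. -/
def Cut {σ : Type*} (m : ℕ → Multiset σ) (y : ℕ → σ) : ℕ → List σ → Prop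
  | 0, l => (l : Multiset σ) = m 0
  | k + 1, l => ∃ u v : List σ, l = u ++ y k :: v ∧ (u : Multiset σ) = m (k + 1) ∧ Cut m y k v

/-! ### The patterns -/

section Pattern

variable {σ : Type*}

theorem cut_congr {m m' : ℕ → Multiset σ} {y y' : ℕ → σ} (k : ℕ) :
    ∀ (l : List σ), (∀ i ≤ k, m i = m' i) → (∀ i < k, y i = y' i) →
      (Cut m y k l ↔ Cut m' y' k l) := by
  induction k with
  | zero =>
    intro l h1 _
    rw [Cut, Cut, h1 0 le_rfl]
  | succ k ih =>
    intro l h1 h2
    rw [Cut, Cut, h1 (k + 1) le_rfl, h2 k (Nat.lt_succ_self k)]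
    refine exists_congr fun u => exists_congr fun v => ?_
    rw [ih v (fun i hi => h1 i (Nat.le_succ_of_le hi)) (fun i hi => h2 i (Nat.lt_succ_of_lt hi))]

theorem cut_perm {m : ℕ → Multiset σ} {y : ℕ → σ} (k : ℕ) :
    ∀ (l l' : List σ), Cut m y k l → Cut m y k l' → l.Perm l' := by
  induction k with
  | zero =>
    intro l l' h h'
    rw [Cut] at h h'
    exact Multiset.coe_eq_coe.mp (h.trans h'.symm)
  | succ k ih =>
    rintro l l' ⟨u, v, rfl, h1, h2⟩ ⟨u', v', rfl, h1', h2'⟩
    exact (Multiset.coe_eq_coe.mp (h1.trans h1'.symm)).append ((ih v v' h2 h2').cons (y k))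

theorem cut_push {m : ℕ → Multiset σ} {y : ℕ → σ} (k : ℕ) (a : σ) (w : List σ) :
    Cut (Function.update m k (a ::ₘ m k)) y k (a :: w) ↔ Cut m y k w := by
  cases k with
  | zero =>
    rw [Cut, Cut, Function.update_self, ← Multiset.cons_coe, Multiset.cons_inj_right]
  | succ k =>
    have hup : ∀ i ≤ k, Function.update m (k + 1) (a ::ₘ m (k + 1)) i = m i := by
      intro i hi
      rw [Function.update_of_ne (by omega)]
    rw [Cut, Cut, Function.update_self]
    constructor
    · rintro ⟨u, v, h1, h2, h3⟩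
      cases u with
      | nil =>
        exact absurd h2.symm (Multiset.cons_ne_zero)
      | cons b u =>
        rw [List.cons_append, List.cons.injEq] at h1
        obtain ⟨rfl, rfl⟩ := h1
        refine ⟨u, v, rfl, ?_, ?_⟩
        · rwa [← Multiset.cons_coe, Multiset.cons_inj_right] at h2
        · exact (cut_congr k v hup (fun _ _ => rfl)).mp h3
    · rintro ⟨u, v, rfl, h2, h3⟩
      refine ⟨a :: u, v, rfl, ?_, ?_⟩
      · rw [← Multiset.cons_coe, h2]
      · exact (cut_congr k v hup (fun _ _ => rfl)).mpr h3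

theorem cut_step {m : ℕ → Multiset σ} {y : ℕ → σ} (k : ℕ) (a b : σ) (w : List σ) :
    Cut (Function.update m (k + 1) 0) (Function.update y k a) (k + 1) (b :: w) ↔
      b = a ∧ Cut m y k w := by
  have hc : ∀ v : List σ, Cut (Function.update m (k + 1) 0) (Function.update y k a) k v ↔
      Cut m y k v := by
    intro v
    refine cut_congr k v (fun i hi => ?_) (fun i hi => ?_)
    · rw [Function.update_of_ne (by omega)]
    · rw [Function.update_of_ne (by omega)]
  rw [Cut, Function.update_self, Function.update_self]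
  constructor
  · rintro ⟨u, v, h1, h2, h3⟩
    have hu : u = [] := (Multiset.coe_eq_zero u).mp h2
    subst hu
    rw [List.nil_append, List.cons.injEq] at h1
    obtain ⟨rfl, rfl⟩ := h1
    exact ⟨rfl, (hc _).mp h3⟩
  · rintro ⟨rfl, h⟩
    exact ⟨[], w, rfl, rfl, (hc _).mpr h⟩

/-- Among fewer than `2 ^ (k + 1)` words of the same length, one is isolated by a pattern with at
most `k` cuts. -/
theorem isolate (x : σ) (L : ℕ) : ∀ (k : ℕ) (S : Finset (List σ)), S.Nonempty → (∀ l ∈ S, l.length = L) →
    S.card < 2 ^ (k + 1) → ∃ (k' : ℕ) (m : ℕ → Multiset σ) (y : ℕ → σ) (w : List σ), k' ≤ k ∧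
      w ∈ S ∧ Cut m y k' w ∧ ∀ l ∈ S, Cut m y k' l → l = w := by
  classical
  induction L with
  | zero =>
    intro k S hS hL _
    obtain ⟨w, hw⟩ := hS
    have hw0 : w = [] := List.eq_nil_of_length_eq_zero (hL w hw)
    subst hw0
    exact ⟨0, fun _ => 0, fun _ => x, [], Nat.zero_le _, hw, rfl,
      fun l hl _ => List.eq_nil_of_length_eq_zero (hL l hl)⟩
  | succ L ih =>
    intro k S hS hL hk
    -- the tails of the words starting with `a`
    have key : ∀ (a : σ) (w : List σ), w ∈ (S.filter (fun l => l.head? = some a)).image List.tail →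
        a :: w ∈ S := by
      intro a w hw
      obtain ⟨l, hl, rfl⟩ := Finset.mem_image.mp hw
      obtain ⟨h1, h2⟩ := Finset.mem_filter.mp hl
      cases l with
      | nil => simp at h2
      | cons b l =>
        rw [List.head?_cons, Option.some.injEq] at h2
        subst h2
        exact h1
    have key2 : ∀ (a : σ) (w : List σ), a :: w ∈ S →
        w ∈ (S.filter (fun l => l.head? = some a)).image List.tail := by
      intro a w hw
      exact Finset.mem_image.mpr ⟨a :: w, Finset.mem_filter.mpr ⟨hw, rfl⟩, rfl⟩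
    obtain ⟨w0, hw0⟩ := hS
    obtain ⟨a, t0, rfl⟩ : ∃ a t0, w0 = a :: t0 := by
      cases w0 with
      | nil => have := hL _ hw0; simp at this
      | cons a t => exact ⟨a, t, rfl⟩
    by_cases hall : ∀ l ∈ S, l.head? = some a
    · obtain ⟨k', m, y, w, h1, h2, h3, h4⟩ := ih k
        ((S.filter (fun l => l.head? = some a)).image List.tail) ⟨t0, key2 a t0 hw0⟩
        (fun l hl => by have := hL _ (key a l hl); simpa using this)
        (lt_of_le_of_lt (Finset.card_image_le.trans (Finset.card_filter_le _ _)) hk)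
      refine ⟨k', Function.update m k' (a ::ₘ m k'), y, a :: w, h1, key a w h2,
        (cut_push k' a w).mpr h3, fun l hl hc => ?_⟩
      cases l with
      | nil => have := hL _ hl; simp at this
      | cons b l =>
        have hb := hall _ hl
        rw [List.head?_cons, Option.some.injEq] at hb
        subst hb
        rw [cut_push] at hc
        rw [h4 l (key2 _ _ hl) hc]
    · push Not at hall
      obtain ⟨w1, hw1, hne⟩ := hall
      obtain ⟨b, t1, rfl⟩ : ∃ b t1, w1 = b :: t1 := by
        cases w1 with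
        | nil => have := hL _ hw1; simp at this
        | cons a t => exact ⟨a, t, rfl⟩
      have hba : b ≠ a := by
        intro h
        exact hne (by rw [h, List.head?_cons])
      have hdisj : Disjoint (S.filter (fun l => l.head? = some a))
          (S.filter (fun l => l.head? = some b)) := by
        rw [Finset.disjoint_filter]
        intro l _ h1 h2
        rw [h1, Option.some.injEq] at h2
        exact hba h2.symm
      have hsum : (S.filter (fun l => l.head? = some a)).card +
          (S.filter (fun l => l.head? = some b)).card ≤ S.card := by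
        rw [← Finset.card_union_of_disjoint hdisj]
        exact Finset.card_le_card (Finset.union_subset (Finset.filter_subset _ _)
          (Finset.filter_subset _ _))
      have hca : 0 < (S.filter (fun l => l.head? = some a)).card :=
        Finset.card_pos.mpr ⟨_, Finset.mem_filter.mpr ⟨hw0, rfl⟩⟩
      have hcb : 0 < (S.filter (fun l => l.head? = some b)).card :=
        Finset.card_pos.mpr ⟨_, Finset.mem_filter.mpr ⟨hw1, rfl⟩⟩
      obtain ⟨k1, rfl⟩ : ∃ k1, k = k1 + 1 := by
        cases k with
        | zero => exfalso; rw [zero_add, pow_one] at hk; omega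
        | succ k1 => exact ⟨k1, rfl⟩
      obtain ⟨c, t, hct, hc⟩ : ∃ (c : σ) (t : List σ), c :: t ∈ S ∧
          (S.filter (fun l => l.head? = some c)).card < 2 ^ (k1 + 1) := by
        rw [pow_succ] at hk
        by_cases h : (S.filter (fun l => l.head? = some a)).card < 2 ^ (k1 + 1)
        · exact ⟨a, t0, hw0, h⟩
        · exact ⟨b, t1, hw1, by omega⟩
      obtain ⟨k', m, y, w, h1, h2, h3, h4⟩ := ih k1
        ((S.filter (fun l => l.head? = some c)).image List.tail) ⟨t, key2 c t hct⟩
        (fun l hl => by have := hL _ (key c l hl); simpa using this)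
        (lt_of_le_of_lt Finset.card_image_le hc)
      refine ⟨k' + 1, Function.update m (k' + 1) 0, Function.update y k' c, c :: w,
        Nat.succ_le_succ h1, key c w h2, (cut_step k' c c w).mpr ⟨rfl, h3⟩, fun l hl hcl => ?_⟩
      cases l with
      | nil => have := hL _ hl; simp at this
      | cons d l =>
        rw [cut_step] at hcl
        obtain ⟨rfl, hcl⟩ := hcl
        rw [h4 l (key2 _ _ hl) hcl]

end Pattern

/-! ### The coefficients of the corner entry -/

section Coeff

variable {K : Type*} [Field K] {σ : Type*}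

open Classical in
/-- The pattern of `Cut`, with the multiplicities given by exponents. -/
def CutE (e : ℕ × σ →₀ ℕ) (y : ℕ → σ) : ℕ → List σ → Prop
  | 0, l => ∀ a, l.count a = e (0, a)
  | k + 1, l => ∃ u v : List σ, l = u ++ y k :: v ∧ (∀ a, u.count a = e (k + 1, a)) ∧ CutE e y k v

theorem cutE_congr {e e' : ℕ × σ →₀ ℕ} {y : ℕ → σ} (k : ℕ) :
    ∀ (l : List σ), (∀ i ≤ k, ∀ a, e (i, a) = e' (i, a)) → (CutE e y k l ↔ CutE e' y k l) := by
  induction k with
  | zero =>
    intro l h1
    rw [CutE, CutE]
    exact forall_congr' fun a => by rw [h1 0 le_rfl a]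
  | succ k ih =>
    intro l h1
    rw [CutE, CutE]
    refine exists_congr fun u => exists_congr fun v => ?_
    rw [ih v (fun i hi => h1 i (Nat.le_succ_of_le hi))]
    refine and_congr Iff.rfl (and_congr (forall_congr' fun a => by rw [h1 (k + 1) le_rfl a])
      Iff.rfl)

theorem sub_at (e : ℕ × σ →₀ ℕ) (i : ℕ) (a : σ) :
    (e - Finsupp.single (i, a) 1 : ℕ × σ →₀ ℕ) (i, a) = e (i, a) - 1 := by
  rw [Finsupp.tsub_apply, Finsupp.single_eq_same]

theorem sub_ne (e : ℕ × σ →₀ ℕ) (i : ℕ) (a : σ) (p : ℕ × σ) (hp : p ≠ (i, a)) :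
    (e - Finsupp.single (i, a) 1 : ℕ × σ →₀ ℕ) p = e p := by
  rw [Finsupp.tsub_apply, Finsupp.single_eq_of_ne hp, Nat.sub_zero]

open Classical in
theorem count_cons_iff (e : ℕ × σ →₀ ℕ) (i : ℕ) (a : σ) (u : List σ) :
    (∀ b, (a :: u).count b = e (i, b)) ↔
      e (i, a) ≠ 0 ∧ ∀ b, u.count b = (e - Finsupp.single (i, a) 1 : ℕ × σ →₀ ℕ) (i, b) := by
  constructor
  · intro h
    have h1 := h a
    rw [List.count_cons_self] at h1
    refine ⟨by omega, fun b => ?_⟩
    by_cases hb : b = a
    · subst hb
      rw [sub_at]; omega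
    · rw [sub_ne _ _ _ _ (fun h2 => hb (Prod.mk.inj h2).2), ← h b,
        List.count_cons_of_ne (Ne.symm hb)]
  · rintro ⟨h1, h2⟩ b
    by_cases hb : b = a
    · subst hb
      have := h2 b
      rw [sub_at] at this
      rw [List.count_cons_self]; omega
    · rw [List.count_cons_of_ne (Ne.symm hb), h2 b,
        sub_ne _ _ _ _ (fun h2 => hb (Prod.mk.inj h2).2)]

theorem cutE_cons_zero (e : ℕ × σ →₀ ℕ) (y : ℕ → σ) (a : σ) (l : List σ) :
    CutE e y 0 (a :: l) ↔ e (0, a) ≠ 0 ∧ CutE (e - Finsupp.single (0, a) 1) y 0 l := by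
  rw [CutE, CutE]
  exact count_cons_iff e 0 a l

theorem cutE_empty (e : ℕ × σ →₀ ℕ) (y : ℕ → σ) (k : ℕ) (h : ∀ a, e (k + 1, a) = 0) (a : σ)
    (l : List σ) : CutE e y (k + 1) (a :: l) ↔ a = y k ∧ CutE e y k l := by
  classical
  rw [CutE]
  constructor
  · rintro ⟨u, v, h1, h2, h3⟩
    have hu : u = [] := by
      cases u with
      | nil => rfl
      | cons b u =>
        have := h2 b
        rw [List.count_cons_self, h b] at this
        omega
    subst hu
    rw [List.nil_append, List.cons.injEq] at h1
    obtain ⟨rfl, rfl⟩ := h1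
    exact ⟨rfl, h3⟩
  · rintro ⟨rfl, h3⟩
    exact ⟨[], l, rfl, fun b => by rw [h b]; rfl, h3⟩

theorem cutE_cons (e : ℕ × σ →₀ ℕ) (y : ℕ → σ) (k : ℕ) (h : ∃ a, e (k + 1, a) ≠ 0) (a : σ)
    (l : List σ) : CutE e y (k + 1) (a :: l) ↔
      e (k + 1, a) ≠ 0 ∧ CutE (e - Finsupp.single (k + 1, a) 1) y (k + 1) l := by
  classical
  have hlow : ∀ i ≤ k, ∀ b, e (i, b) = (e - Finsupp.single (k + 1, a) 1 : ℕ × σ →₀ ℕ) (i, b) := by
    intro i hi b
    rw [sub_ne]
    intro h2
    have := (Prod.mk.inj h2).1
    omega
  rw [CutE, CutE]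
  constructor
  · rintro ⟨u, v, h1, h2, h3⟩
    cases u with
    | nil =>
      obtain ⟨b, hb⟩ := h
      exact absurd (h2 b).symm hb
    | cons b u =>
      rw [List.cons_append, List.cons.injEq] at h1
      obtain ⟨rfl, rfl⟩ := h1
      obtain ⟨h4, h5⟩ := (count_cons_iff e (k + 1) a u).mp h2
      exact ⟨h4, u, v, rfl, h5, (cutE_congr k v hlow).mp h3⟩
  · rintro ⟨h4, u, v, rfl, h5, h3⟩
    exact ⟨a :: u, v, rfl, (count_cons_iff e (k + 1) a u).mpr ⟨h4, h5⟩,
      (cutE_congr k v hlow).mpr h3⟩

/-- The diagonal of the generic matrices. -/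
noncomputable def gd (K : Type*) [Field K] (k : ℕ) (i : σ) (v : Fin (k + 1)) :
    MvPolynomial (ℕ × σ) K := MvPolynomial.X ((v : ℕ), i)

open Classical in
/-- The entries below the diagonal of the generic matrices. -/
noncomputable def gs (K : Type*) [Field K] (k : ℕ) (y : ℕ → σ) (i : σ) (j : Fin k) :
    MvPolynomial (ℕ × σ) K := if i = y j then 1 else 0

open Classical in
theorem wcoeff (k : ℕ) (y : ℕ → σ) (l : List σ) : ∀ (r : Fin (k + 1)) (e : ℕ × σ →₀ ℕ),
    MvPolynomial.coeff e ((l.map (lbd (gd K k) (gs K k y))).prod r 0) =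
      if (∀ i, (r : ℕ) < i → ∀ a, e (i, a) = 0) ∧ CutE e y r l then 1 else 0 := by
  induction l with
  | nil =>
    intro r e
    rw [List.map_nil, List.prod_nil]
    induction r using Fin.cases with
    | zero =>
      rw [Matrix.one_apply_eq, MvPolynomial.coeff_one, Fin.val_zero, CutE]
      refine if_congr ?_ rfl rfl
      constructor
      · rintro rfl
        exact ⟨fun _ _ _ => rfl, fun _ => rfl⟩
      · rintro ⟨h1, h2⟩
        ext ⟨i, a⟩
        rcases Nat.eq_zero_or_pos i with rfl | hi
        · exact h2 a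
        · exact (h1 i hi a).symm
    | succ j =>
      rw [Matrix.one_apply_ne (Fin.succ_ne_zero j), MvPolynomial.coeff_zero, if_neg]
      rintro ⟨h1, h2⟩
      rw [Fin.val_succ, CutE] at h2
      obtain ⟨u, v, h3, -⟩ := h2
      simp at h3
  | cons a l ih =>
    intro r e
    rw [List.map_cons, List.prod_cons]
    induction r using Fin.cases with
    | zero =>
      rw [lbd_mul_zero, Fin.val_zero, gd, Fin.val_zero, MvPolynomial.coeff_X_mul']
      by_cases he : e (0, a) = 0
      · rw [if_neg (by simpa using he), if_neg]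
        rintro ⟨-, h2⟩
        exact ((cutE_cons_zero e y a l).mp h2).1 he
      · rw [if_pos (by simpa using he), ih]
        refine if_congr ?_ rfl rfl
        rw [Fin.val_zero, cutE_cons_zero]
        have hi : ∀ i, 0 < i → ∀ b, (e - Finsupp.single (0, a) 1 : ℕ × σ →₀ ℕ) (i, b) =
            e (i, b) := by
          intro i hi b
          rw [sub_ne]
          intro h2
          have := (Prod.mk.inj h2).1
          omega
        constructor
        · rintro ⟨h1, h2⟩
          exact ⟨fun i h b => by rw [← hi i h]; exact h1 i h b, he, h2⟩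
        · rintro ⟨h1, -, h2⟩
          exact ⟨fun i h b => by rw [hi i h]; exact h1 i h b, h2⟩
    | succ j =>
      rw [lbd_mul_succ, MvPolynomial.coeff_add, gd, gs, Fin.val_succ, MvPolynomial.coeff_X_mul']
      by_cases hex : ∃ b, e ((j : ℕ) + 1, b) ≠ 0
      · have h0 : MvPolynomial.coeff e ((if a = y j then (1 : MvPolynomial (ℕ × σ) K) else 0) *
            (l.map (lbd (gd K k) (gs K k y))).prod j.castSucc 0) = 0 := by
          split_ifs
          · rw [one_mul, ih, if_neg]
            rintro ⟨h1, -⟩
            obtain ⟨b, hb⟩ := hex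
            exact hb (h1 ((j : ℕ) + 1) (by rw [Fin.val_castSucc]; omega) b)
          · rw [zero_mul, MvPolynomial.coeff_zero]
        rw [h0, add_zero]
        by_cases he : e ((j : ℕ) + 1, a) = 0
        · rw [if_neg (by simpa using he), if_neg]
          rintro ⟨-, h2⟩
          exact ((cutE_cons e y j hex a l).mp h2).1 he
        · rw [if_pos (by simpa using he), ih]
          refine if_congr ?_ rfl rfl
          rw [Fin.val_succ, cutE_cons e y j hex]
          have hi : ∀ i, (j : ℕ) + 1 < i → ∀ b,
              (e - Finsupp.single ((j : ℕ) + 1, a) 1 : ℕ × σ →₀ ℕ) (i, b) = e (i, b) := by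
            intro i hi b
            rw [sub_ne]
            intro h2
            have := (Prod.mk.inj h2).1
            omega
          constructor
          · rintro ⟨h1, h2⟩
            exact ⟨fun i h b => by rw [← hi i h]; exact h1 i h b, he, h2⟩
          · rintro ⟨h1, -, h2⟩
            exact ⟨fun i h b => by rw [hi i h]; exact h1 i h b, h2⟩
      · push Not at hex
        rw [if_neg (by simpa using hex a), zero_add]
        by_cases ha : a = y j
        · rw [if_pos ha, one_mul, ih, Fin.val_castSucc]
          refine if_congr ?_ rfl rfl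
          rw [cutE_empty e y j hex]
          constructor
          · rintro ⟨h1, h2⟩
            exact ⟨fun i hi b => h1 i (by omega) b, ha, h2⟩
          · rintro ⟨h1, -, h2⟩
            refine ⟨fun i hi b => ?_, h2⟩
            rcases Nat.eq_or_lt_of_le (Nat.succ_le_of_lt hi) with h3 | h3
            · rw [← h3]; exact hex b
            · exact h1 i h3 b
        · rw [if_neg ha, zero_mul, MvPolynomial.coeff_zero, if_neg]
          rintro ⟨-, h2⟩
          exact ha ((cutE_empty e y j hex a l).mp h2).1

open Classical in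
theorem fcoeff (k : ℕ) (y : ℕ → σ) (r : Fin (k + 1)) (e : ℕ × σ →₀ ℕ)
    (he : ∀ i, (r : ℕ) < i → ∀ a, e (i, a) = 0) (f : FreeAlgebra K σ) :
    MvPolynomial.coeff e (FreeAlgebra.lift K (lbd (gd K k) (gs K k y)) f r 0) =
      (FreeAlgebra.equivMonoidAlgebraFreeMonoid f).coeff.sum
        (fun w c => if CutE e y r (FreeMonoid.toList w) then c else 0) := by
  obtain ⟨g, rfl⟩ := (FreeAlgebra.equivMonoidAlgebraFreeMonoid (R := K) (X := σ)).symm.surjective f
  rw [AlgEquiv.apply_symm_apply]
  induction g using MonoidAlgebra.induction_linear with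
  | zero => simp
  | add g h hg hh =>
    rw [map_add, map_add, Matrix.add_apply, MvPolynomial.coeff_add, hg, hh, MonoidAlgebra.coeff_add,
      Finsupp.sum_add_index']
    · intro w; split_ifs <;> rfl
    · intro w b c
      split_ifs
      · rfl
      · rw [add_zero]
  | single w c =>
    rw [lift_symm_single, Matrix.smul_apply, MvPolynomial.coeff_smul, wcoeff,
      MonoidAlgebra.coeff_single, Finsupp.sum_single_index (by split_ifs <;> rfl)]
    by_cases h : CutE e y r (FreeMonoid.toList w)
    · rw [if_pos h, if_pos ⟨he, h⟩, smul_eq_mul, mul_one]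
    · rw [if_neg h, if_neg (fun h2 => h h2.2), smul_zero]

open Classical in
/-- The exponents of the multisets `m i`, `i ≤ k`. -/
noncomputable def expo (m : ℕ → Multiset σ) (k : ℕ) : ℕ × σ →₀ ℕ :=
  Finsupp.onFinset ((Finset.range (k + 1)).biUnion fun i => (m i).toFinset.image fun a => (i, a))
    (fun p => if p.1 ≤ k then (m p.1).count p.2 else 0) (by
      rintro ⟨i, a⟩ h
      rw [Finset.mem_biUnion]
      by_cases hi : i ≤ k
      · rw [if_pos hi] at h
        refine ⟨i, Finset.mem_range.mpr (Nat.lt_succ_of_le hi), Finset.mem_image.mpr ⟨a, ?_, rfl⟩⟩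
        rw [Multiset.mem_toFinset]
        exact Multiset.count_ne_zero.mp h
      · rw [if_neg hi] at h
        exact absurd rfl h)

theorem cutE_expo (m : ℕ → Multiset σ) (y : ℕ → σ) (k : ℕ) (r : ℕ) (hr : r ≤ k) :
    ∀ l : List σ, CutE (expo m k) y r l ↔ Cut m y r l := by
  classical
  have hc : ∀ (i : ℕ), i ≤ k → ∀ (u : List σ), (∀ a, u.count a = expo m k (i, a)) ↔
      (u : Multiset σ) = m i := by
    intro i hi u
    rw [Multiset.ext]
    refine forall_congr' fun a => ?_
    rw [Multiset.coe_count, expo, Finsupp.onFinset_apply, if_pos hi]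
  induction r with
  | zero =>
    intro l
    rw [CutE, Cut]
    exact hc 0 hr l
  | succ r ih =>
    intro l
    rw [CutE, Cut]
    refine exists_congr fun u => exists_congr fun v => ?_
    rw [ih (by omega) v]
    exact and_congr Iff.rfl (and_congr (hc (r + 1) hr u) Iff.rfl)

theorem relation [Infinite K] {n : ℕ} (hn : 3 ≤ n) (f : FreeAlgebra K σ)
    (hf : ∀ m < n, ∀ Y : σ → Matrix (Fin m) (Fin m) K, FreeAlgebra.lift K Y f = 0)
    (ν : ℕ) (hν : 0 < ν) (h : ∀ X : σ → Matrix (Fin n) (Fin n) K,
      ∀ Z : Matrix (Fin n) (Fin n) K,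
      FreeAlgebra.lift K X (f ^ ν) * Z = Z * FreeAlgebra.lift K X (f ^ ν))
    (k : ℕ) (hk : k < n) (m : ℕ → Multiset σ) (y : ℕ → σ) :
    ∑ᶠ l ∈ {l | Cut m y k l}, coef f l = 0 := by
  classical
  have h1 := fcoeff (K := K) k y (Fin.last k) (expo m k) (fun i hi a => by
    rw [Fin.val_last] at hi
    rw [expo, Finsupp.onFinset_apply, if_neg (by simp only [not_le]; exact hi)]) f
  rw [lower_zero hn f hf ν hν h hk, MvPolynomial.coeff_zero, Fin.val_last] at h1
  rw [finsum_mem_def, finsum_eq_sum_of_support_subset (s :=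
    (FreeAlgebra.equivMonoidAlgebraFreeMonoid f).coeff.support.map
      FreeMonoid.toList.toEmbedding), Finset.sum_map, h1, Finsupp.sum]
  · refine Finset.sum_congr rfl fun w _ => ?_
    rw [Set.indicator_apply]
    refine if_congr ?_ rfl rfl
    exact (cutE_expo m y k k le_rfl (FreeMonoid.toList w)).symm
  · intro l hl
    rw [Function.mem_support, Set.indicator_apply] at hl
    have h2 : coef f l ≠ 0 := by
      intro h3
      rw [h3, ite_self] at hl
      exact hl rfl
    rw [Finset.coe_map, Set.mem_image]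
    exact ⟨FreeMonoid.ofList l, Finsupp.mem_support_iff.mpr h2, rfl⟩

/-- The words with the letters of a given word. -/
theorem many [Infinite K] {n : ℕ} (hn : 3 ≤ n) (f : FreeAlgebra K σ)
    (hf : ∀ m < n, ∀ Y : σ → Matrix (Fin m) (Fin m) K, FreeAlgebra.lift K Y f = 0)
    (ν : ℕ) (hν : 0 < ν) (h : ∀ X : σ → Matrix (Fin n) (Fin n) K,
      ∀ Z : Matrix (Fin n) (Fin n) K,
      FreeAlgebra.lift K X (f ^ ν) * Z = Z * FreeAlgebra.lift K X (f ^ ν))
    (l : List σ) (hne : l ≠ []) (hl : coef f l ≠ 0) :
    2 ^ n ≤ {l' : List σ | l'.Perm l ∧ coef f l' ≠ 0}.ncard := by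
  classical
  obtain ⟨x, -, -⟩ := List.exists_cons_of_ne_nil hne
  have hfin : {l' : List σ | l'.Perm l ∧ coef f l' ≠ 0}.Finite := by
    refine Set.Finite.subset (l.permutations.toFinset).finite_toSet fun l' h' => ?_
    rw [Finset.mem_coe, List.mem_toFinset, List.mem_permutations]
    exact h'.1
  by_contra hcon
  rw [not_le, Set.ncard_eq_toFinset_card _ hfin] at hcon
  obtain ⟨k', m, y, w, h1, h2, h3, h4⟩ := isolate x l.length (n - 1) hfin.toFinset
    ⟨l, hfin.mem_toFinset.mpr ⟨List.Perm.refl l, hl⟩⟩
    (fun l' h' => (hfin.mem_toFinset.mp h').1.length_eq) (by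
      rwa [Nat.sub_add_cancel (by omega)])
  obtain ⟨h5, h6⟩ := hfin.mem_toFinset.mp h2
  have h7 := relation hn f hf ν hν h k' (by omega) m y
  have h8 : ∑ᶠ l ∈ {l | Cut m y k' l}, coef f l = ∑ᶠ l ∈ ({w} : Set (List σ)), coef f l := by
    rw [finsum_mem_def, finsum_mem_def]
    refine finsum_congr fun l' => ?_
    rw [Set.indicator_apply, Set.indicator_apply]
    by_cases h9 : l' = w
    · subst h9
      rw [if_pos (show l' ∈ {l | Cut m y k' l} from h3), if_pos (Set.mem_singleton _)]
    · rw [if_neg (show l' ∉ ({w} : Set (List σ)) from h9)]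
      by_cases h10 : Cut m y k' l'
      · rw [if_pos (show l' ∈ {l | Cut m y k' l} from h10)]
        by_contra h11
        exact h9 (h4 l' (hfin.mem_toFinset.mpr ⟨(cut_perm k' l' w h10 h3).trans h5, h11⟩) h10)
      · rw [if_neg (show l' ∉ {l | Cut m y k' l} from h10)]
  rw [h8, finsum_mem_singleton] at h7
  exact h6 h7

end Coeff

/-- Let `K` be an infinite field (of any characteristic), `n ≥ 3` and `f` a polynomial. Suppose
that `f` has no constant term and some power `f ^ ν`, `ν ≥ 1`, takes only scalar values on `M_n(K)`,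
or that `n` is prime and `f` is `n`-central for `M_n(K)`.
* Cut the words at `k < n` given letters `y`: for given multisets `m 0, …, m k` of letters (not
  `k = 0` and `m 0 = 0`) the sum of the coefficients in `f` of all words
  `u_k y_{k-1} u_{k-1} ⋯ y_1 u_1 y_0 u_0`, the word `u_i` running through the arrangements
  of `m i`, is zero.
* If a nonempty word occurs in `f` then at least `2 ^ n` of its rearrangements occur in `f`. -/
theorem result {K : Type*} [Field K] [Infinite K] {σ : Type*} (n : ℕ) (hn3 : 3 ≤ n)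
    (f : FreeAlgebra K σ)
    (hf : (coef f [] = 0 ∧ ∃ ν : ℕ, 0 < ν ∧ ScalarValued n (f ^ ν)) ∨
      (n.Prime ∧ IsNuCentral n n f)) :
    (∀ (k : ℕ) (m : ℕ → Multiset σ) (y : ℕ → σ), k < n → (k = 0 → m 0 ≠ 0) →
      ∑ᶠ l ∈ {l | Cut m y k l}, coef f l = 0) ∧
    (∀ l : List σ, l ≠ [] → coef f l ≠ 0 →
      2 ^ n ≤ {l' : List σ | l'.Perm l ∧ coef f l' ≠ 0}.ncard) := by
  have : NeZero n := ⟨by omega⟩
  -- it is enough to find `g` with the same coefficients
  have main : ∀ (g : FreeAlgebra K σ) (ν : ℕ), 0 < ν → (∀ l, l ≠ [] → coef g l = coef f l) →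
      FreeAlgebra.lift K (fun _ : σ => (0 : K)) g = 0 →
      (∀ X : σ → Matrix (Fin n) (Fin n) K, ∃ c : K,
        FreeAlgebra.lift K X (g ^ ν) = Matrix.scalar (Fin n) c) →
      (∀ (k : ℕ) (m : ℕ → Multiset σ) (y : ℕ → σ), k < n → (k = 0 → m 0 ≠ 0) →
        ∑ᶠ l ∈ {l | Cut m y k l}, coef f l = 0) ∧
      (∀ l : List σ, l ≠ [] → coef f l ≠ 0 →
        2 ^ n ≤ {l' : List σ | l'.Perm l ∧ coef f l' ≠ 0}.ncard) := by
    intro g ν hν hco hg0 hgn
    have hvan := vanish_lower g ν hν hg0 hgn
    have hgcomm : ∀ X : σ → Matrix (Fin n) (Fin n) K, ∀ Z : Matrix (Fin n) (Fin n) K,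
        FreeAlgebra.lift K X (g ^ ν) * Z = Z * FreeAlgebra.lift K X (g ^ ν) := by
      intro X Z
      obtain ⟨c, hc⟩ := hgn X
      rw [hc]
      exact (Matrix.scalar_commute c (fun _ => Commute.all _ _) Z).eq
    refine ⟨fun k m y hk hm => ?_, fun l hne hl => ?_⟩
    · have h1 := relation hn3 g hvan ν hν hgcomm k hk m y
      rw [← h1]
      refine finsum_mem_congr rfl fun l hl => (hco l ?_).symm
      rintro rfl
      cases k with
      | zero => exact hm rfl (Eq.symm hl)
      | succ k =>
        obtain ⟨u, v, h2, -⟩ := hl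
        simp at h2
    · have h1 := many hn3 g hvan ν hν hgcomm l hne (by rw [hco l hne]; exact hl)
      have h2 : {l' : List σ | l'.Perm l ∧ coef g l' ≠ 0} =
          {l' : List σ | l'.Perm l ∧ coef f l' ≠ 0} := by
        ext l'
        refine and_congr_right fun h3 => ?_
        rw [hco l' (fun h4 => hne (by rw [h4] at h3; exact h3.symm.eq_nil))]
      rwa [h2] at h1
  have hcc : ∀ (f : FreeAlgebra K σ) (l : List σ),
      Pool.Agent.Results.MP_5d2531_al.BlockTriangular.coef f l = coef f l := fun _ _ => rfl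
  rcases hf with ⟨h0, ν, hν, hs⟩ | ⟨hn, hcen⟩
  · refine main f ν hν (fun _ _ => rfl) ?_ hs
    rw [Pool.Agent.Results.MP_5d2531_al.BlockTriangular.lift_zero_coef, hcc, h0]
  · obtain ⟨h1, ⟨h2, X0, hX0⟩, h3⟩ := hcen
    have hfX0 : FreeAlgebra.lift K X0 f ≠ 0 := by
      intro hz
      apply hX0
      rw [map_pow, hz, zero_pow hn.ne_zero]
    have hpow : ∀ X : σ → Matrix (Fin n) (Fin n) K, ∀ Z : Matrix (Fin n) (Fin n) K,
        FreeAlgebra.lift K X (f ^ n) * Z = Z * FreeAlgebra.lift K X (f ^ n) := by
      intro X Z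
      obtain ⟨c, hc⟩ := h2 X
      rw [hc]
      exact (Matrix.scalar_commute c (fun _ => Commute.all _ _) Z).eq
    -- `f` is not scalar valued
    have hns : ∃ X : σ → Matrix (Fin n) (Fin n) K, ∃ Z : Matrix (Fin n) (Fin n) K,
        FreeAlgebra.lift K X f * Z ≠ Z * FreeAlgebra.lift K X f := by
      by_contra hcon
      push Not at hcon
      have h4 : IsCentral n (f ^ 1) := by
        rw [pow_one]
        exact ⟨fun X => scalar_of_comm _ (fun Y => hcon X Y), X0, hfX0⟩
      have h5 := h3 1 one_pos h4
      omega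
    -- the constant term
    have hc0 : (n : K) ≠ 0 → coef f [] = 0 := by
      intro hnK
      obtain ⟨c, hc⟩ := charpoly_of_ncentral hn hnK f hpow hns (fun _ => 0)
      have h4 : (FreeAlgebra.lift K (fun _ : σ => (0 : Matrix (Fin n) (Fin n) K)) f).trace = 0 := by
        rw [Matrix.trace_eq_neg_charpoly_coeff, hc, Fintype.card_fin, Polynomial.coeff_sub,
          Polynomial.coeff_X_pow, if_neg (by omega), Polynomial.coeff_C, if_neg (by omega),
          sub_zero, neg_zero]
      rw [lift_zero, Pool.Agent.Results.MP_5d2531_al.BlockTriangular.lift_zero_coef,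
        Matrix.trace] at h4
      simp only [Matrix.diag_apply, Matrix.algebraMap_matrix_apply, if_true,
        Algebra.algebraMap_self, RingHom.id_apply, Finset.sum_const, Finset.card_univ,
        Fintype.card_fin, nsmul_eq_mul] at h4
      exact (mul_eq_zero.mp h4).resolve_left hnK
    set c := coef f [] with hc
    set g := f - algebraMap K (FreeAlgebra K σ) c with hg
    have hg0 : FreeAlgebra.lift K (fun _ : σ => (0 : K)) g = 0 := by
      rw [hg, map_sub, AlgHom.commutes,
        Pool.Agent.Results.MP_5d2531_al.BlockTriangular.lift_zero_coef, hcc, ← hc]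
      simp
    have hgn : ∀ X : σ → Matrix (Fin n) (Fin n) K, ∃ c : K,
        FreeAlgebra.lift K X (g ^ n) = Matrix.scalar (Fin n) c := by
      intro X
      by_cases hnK : (n : K) = 0
      · have : Fact n.Prime := ⟨hn⟩
        have : CharP K n := by
          obtain ⟨q, hq⟩ := CharP.exists K
          have h4 : q ∣ n := (CharP.cast_eq_zero_iff K q n).mp hnK
          rcases (Nat.dvd_prime hn).mp h4 with h5 | h5
          · exfalso
            have := CharP.cast_eq_zero K q
            rw [h5] at this
            simp at this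
          · rw [← h5]; exact hq
        have : CharP (FreeAlgebra K σ) n :=
          charP_of_injective_algebraMap (algebraMap K (FreeAlgebra K σ)).injective n
        have h4 : g ^ n = f ^ n - algebraMap K (FreeAlgebra K σ) (c ^ n) := by
          rw [hg, sub_pow_char_of_commute n (Algebra.commutes c f).symm, map_pow]
        obtain ⟨d, hd⟩ := h2 X
        refine ⟨d - c ^ n, ?_⟩
        rw [h4, map_sub, hd, AlgHom.commutes, map_sub]
        rfl
      · have h4 : g = f := by rw [hg, hc0 hnK, map_zero, sub_zero]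
        rw [h4]; exact h2 X
    refine main g n hn.pos (fun l hl => ?_) hg0 hgn
    exact Pool.Agent.Results.MP_5d2531_al.BlockTriangular.cf_sub f c l hl

end Pool.Agent.Results.MP_5d2531_al.ExponentiallyManyWords
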