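import Mathlib
import Pool.Agent.TH82.NC.Dom
import Pool.Agent.Results.MP_5d2531_al.OtherVariablesDegree

/-!
# A normal form for power-central polynomials: two variables, bihomogeneous, shift invariant

`K` is an infinite field, `ν` is a prime which is not zero in `K` and `n` is any integer (for the
question: `ν = n` prime).

* Leading coefficients: if the variables of a `ν`-central polynomial are replaced by polynomials
  which depend polynomially on a central parameter `s`, then the last coefficient (with respect to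
  `s`) which has a value that is not scalar is again `ν`-central, and all later coefficients vanish
  identically on `M_n(K)`.
* If there is a `ν`-central polynomial for `M_n(K)` then there is one in two variables `x`, `y`,
  homogeneous in `x` and in `y`, whose value does not change if a scalar is added to `x` or if an
  arbitrary polynomial in `x` is added to `y`.
-/

set_option autoImplicit false

namespace Pool.Agent.Results.MP_5d2531_al.TwoVariableNormalForm

open Polynomial Pool.Agent.H552R3.PC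

variable {K : Type*} [Field K] {σ τ : Type*}

/-- Every value of `f` on `n × n` matrices over `K` is a scalar matrix. -/
def ScalarValued (n : ℕ) (f : FreeAlgebra K σ) : Prop :=
  ∀ X : σ → Matrix (Fin n) (Fin n) K, ∃ c : K, FreeAlgebra.lift K X f = Matrix.scalar (Fin n) c

/-- `f` is central for `M_n(K)`: all values are scalar and `f` is not identically zero. -/
def IsCentral (n : ℕ) (f : FreeAlgebra K σ) : Prop :=
  ScalarValued n f ∧ ∃ X : σ → Matrix (Fin n) (Fin n) K, FreeAlgebra.lift K X f ≠ 0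

/-- `f` is `ν`-central for `M_n(K)`: `ν` is the least positive integer with `f ^ ν` central. -/
def IsNuCentral (n ν : ℕ) (f : FreeAlgebra K σ) : Prop :=
  0 < ν ∧ IsCentral n (f ^ ν) ∧ ∀ μ : ℕ, 0 < μ → IsCentral n (f ^ μ) → ν ≤ μ

/-- `f` vanishes identically on `M_n(K)`. -/
def Vanishes (n : ℕ) (f : FreeAlgebra K σ) : Prop :=
  ∀ X : σ → Matrix (Fin n) (Fin n) K, FreeAlgebra.lift K X f = 0

/-- `f` is a linear combination of words in two letters `0`, `1` with `d` letters `0` and `e`
letters `1`. -/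
def Bihomogeneous (d e : ℕ) (f : FreeAlgebra K (Fin 2)) : Prop :=
  f ∈ Submodule.span K {w : FreeAlgebra K (Fin 2) | ∃ l : List (Fin 2),
    l.count 0 = d ∧ l.count 1 = e ∧ w = (l.map (FreeAlgebra.ι K)).prod}

/-! ### Polynomials with matrix coefficients -/

section Mat

variable {n : ℕ}

/-- evaluation at a scalar -/
noncomputable def ev (s : K) :
    (Matrix (Fin n) (Fin n) K)[X] →ₐ[K] Matrix (Fin n) (Fin n) K :=
  Polynomial.eval₂AlgHom (AlgHom.id K _) (algebraMap K _ s) (fun a => (Algebra.commutes s a).symm)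

theorem ev_eq (s : K) (N : (Matrix (Fin n) (Fin n) K)[X]) (m : ℕ) (hm : N.natDegree < m) :
    ev s N = ∑ i ∈ Finset.range m, s ^ i • N.coeff i := by
  unfold ev
  rw [Polynomial.eval₂AlgHom_apply]
  simp only [AlgHom.id_toRingHom]
  rw [Polynomial.eval₂_eq_sum_range' _ hm]
  refine Finset.sum_congr rfl fun i _ => ?_
  rw [← map_pow, RingHom.id_apply, ← Algebra.commutes, Algebra.smul_def]

/-- the entries -/
noncomputable def ent (N : (Matrix (Fin n) (Fin n) K)[X]) (a b : Fin n) : K[X] :=
  matPolyEquiv.symm N a b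

theorem ent_coeff (N : (Matrix (Fin n) (Fin n) K)[X]) (a b : Fin n) (k : ℕ) :
    (ent N a b).coeff k = N.coeff k a b :=
  matPolyEquiv_symm_apply_coeff N a b k

theorem ent_natDegree (N : (Matrix (Fin n) (Fin n) K)[X]) (a b : Fin n) (e : ℕ)
    (h : N.natDegree ≤ e) : (ent N a b).natDegree ≤ e := by
  rw [Polynomial.natDegree_le_iff_coeff_eq_zero]
  intro k hk
  rw [ent_coeff, Polynomial.coeff_eq_zero_of_natDegree_lt (lt_of_le_of_lt h hk)]
  rfl

theorem ent_eval (N : (Matrix (Fin n) (Fin n) K)[X]) (a b : Fin n) (s : K) :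
    (ent N a b).eval s = ev s N a b := by
  rw [ev_eq s N (N.natDegree + 1) (Nat.lt_succ_self _),
    Polynomial.eval_eq_sum_range' (Nat.lt_succ_of_le (ent_natDegree N a b _ le_rfl)),
    Matrix.sum_apply]
  refine Finset.sum_congr rfl fun i _ => ?_
  rw [ent_coeff, Matrix.smul_apply, smul_eq_mul, mul_comm]

theorem ent_ext (N N' : (Matrix (Fin n) (Fin n) K)[X]) (h : ∀ a b, ent N a b = ent N' a b) :
    N = N' := by
  ext k a b
  rw [← ent_coeff, h, ent_coeff]

theorem ev_inj [Infinite K] (N N' : (Matrix (Fin n) (Fin n) K)[X])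
    (h : ∀ s : K, s ≠ 0 → ev s N = ev s N') : N = N' := by
  apply ent_ext
  intro a b
  apply Polynomial.eq_of_infinite_eval_eq
  have h1 : ({0}ᶜ : Set K).Infinite := (Set.finite_singleton (0 : K)).infinite_compl
  apply h1.mono
  intro s hs
  change (ent N a b).eval s = (ent N' a b).eval s
  rw [ent_eval, ent_eval, h s hs]

theorem comm_of_ev [Infinite K] (N : (Matrix (Fin n) (Fin n) K)[X])
    (h : ∀ s : K, ∃ c : K, ev s N = Matrix.scalar (Fin n) c) (Y : Matrix (Fin n) (Fin n) K) :
    N * C Y = C Y * N := by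
  apply ev_inj
  intro s _
  rw [map_mul, map_mul]
  obtain ⟨c, hc⟩ := h s
  rw [hc]
  exact (Matrix.scalar_commute c (fun _ => Commute.all _ _) _).eq

theorem scalar_mul' (c : K) (M : Matrix (Fin n) (Fin n) K) :
    Matrix.scalar (Fin n) c * M = c • M := by
  rw [Matrix.scalar_apply, ← Matrix.smul_eq_diagonal_mul]

/-- the leading coefficient of the commutator of a power -/
theorem comm_coeff (N : (Matrix (Fin n) (Fin n) K)[X]) (Y : Matrix (Fin n) (Fin n) K) (D e : ℕ)
    (hD : N.natDegree ≤ D) (z : K) (hz : N.coeff D = Matrix.scalar (Fin n) z)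
    (he : (N * C Y - C Y * N).natDegree ≤ e) (m : ℕ) :
    (N ^ (m + 1) * C Y - C Y * N ^ (m + 1)).natDegree ≤ m * D + e ∧
    (N ^ (m + 1) * C Y - C Y * N ^ (m + 1)).coeff (m * D + e) =
      ((m + 1 : ℕ) : K) • (z ^ m • (N * C Y - C Y * N).coeff e) := by
  induction m with
  | zero =>
    simp only [zero_add, pow_one, zero_mul, Nat.cast_one, pow_zero, one_smul]
    exact ⟨he, trivial⟩
  | succ m ih =>
    obtain ⟨ih1, ih2⟩ := ih
    have key : N ^ (m + 1 + 1) * C Y - C Y * N ^ (m + 1 + 1) =
        N ^ (m + 1) * (N * C Y - C Y * N) + (N ^ (m + 1) * C Y - C Y * N ^ (m + 1)) * N := by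
      rw [pow_succ N (m + 1), mul_sub, sub_mul]
      simp only [mul_assoc]
      abel
    have hp : (N ^ (m + 1)).natDegree ≤ (m + 1) * D :=
      (Polynomial.natDegree_pow_le).trans (Nat.mul_le_mul_left _ hD)
    have h1 : (N ^ (m + 1) * (N * C Y - C Y * N)).natDegree ≤ (m + 1) * D + e :=
      Polynomial.natDegree_mul_le_of_le hp he
    have h2 : ((N ^ (m + 1) * C Y - C Y * N ^ (m + 1)) * N).natDegree ≤ (m + 1) * D + e := by
      have := Polynomial.natDegree_mul_le_of_le ih1 hD
      have e1 : m * D + e + D = (m + 1) * D + e := by ring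
      rwa [e1] at this
    have c1 : (N ^ (m + 1) * (N * C Y - C Y * N)).coeff ((m + 1) * D + e) =
        z ^ (m + 1) • (N * C Y - C Y * N).coeff e := by
      rw [Polynomial.coeff_mul_add_eq_of_natDegree_le hp he, Polynomial.coeff_pow_of_natDegree_le hD, hz,
        ← map_pow]
      rw [scalar_mul'] 
    have c2 : ((N ^ (m + 1) * C Y - C Y * N ^ (m + 1)) * N).coeff ((m + 1) * D + e) =
        ((m + 1 : ℕ) : K) • (z ^ (m + 1) • (N * C Y - C Y * N).coeff e) := by
      have e1 : (m + 1) * D + e = (m * D + e) + D := by ring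
      rw [e1, Polynomial.coeff_mul_add_eq_of_natDegree_le ih1 hD, ih2, hz]
      rw [(Matrix.scalar_commute z (fun _ => Commute.all _ _) _).eq.symm, 
        scalar_mul', smul_comm z, smul_smul z, ← pow_succ']
    refine ⟨?_, ?_⟩
    · rw [key]
      exact (Polynomial.natDegree_add_le _ _).trans (max_le h1 h2)
    · rw [key, Polynomial.coeff_add, c1, c2]
      rw [show ((m + 1 + 1 : ℕ) : K) = 1 + ((m + 1 : ℕ) : K) by push_cast; ring, add_smul, one_smul]

end Mat

/-! ### Substitutions with a parameter -/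

section Subst

variable {n : ℕ}

/-- The map on polynomials in `s` induced by the evaluation at `X`. -/
noncomputable def E (X : τ → Matrix (Fin n) (Fin n) K) :
    (FreeAlgebra K τ)[X] →ₐ[K] (Matrix (Fin n) (Fin n) K)[X] :=
  Polynomial.mapAlgHom (FreeAlgebra.lift K X)

theorem E_coeff (X : τ → Matrix (Fin n) (Fin n) K) (F : (FreeAlgebra K τ)[X]) (k : ℕ) :
    (E X F).coeff k = FreeAlgebra.lift K X (F.coeff k) := by
  unfold E
  rw [Polynomial.coe_mapAlgHom, Polynomial.coeff_map]
  rfl

/-- the values of the substituted variables -/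
noncomputable def sub (P : σ → (FreeAlgebra K τ)[X]) (X : τ → Matrix (Fin n) (Fin n) K) (s : K) :
    σ → Matrix (Fin n) (Fin n) K := fun i => ev s (E X (P i))

theorem ev_E (P : σ → (FreeAlgebra K τ)[X]) (X : τ → Matrix (Fin n) (Fin n) K) (s : K)
    (f : FreeAlgebra K σ) :
    ev s (E X (FreeAlgebra.lift K P f)) = FreeAlgebra.lift K (sub P X s) f := by
  rw [lift_map (E X) P f, lift_map (ev s)]
  rfl

theorem scalar_of_comm' {f : FreeAlgebra K σ}
    (h : ∀ (X : σ → Matrix (Fin n) (Fin n) K) (Y : Matrix (Fin n) (Fin n) K),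
      FreeAlgebra.lift K X f * Y = Y * FreeAlgebra.lift K X f) : ScalarValued n f :=
  fun X => scalar_of_comm _ (h X)

theorem det_ne {M : Matrix (Fin n) (Fin n) K} {z : K} (hM : M = Matrix.scalar (Fin n) z)
    (h : M ≠ 0) : M.det ≠ 0 := by
  have hz : z ≠ 0 := by
    rintro rfl
    exact h (by rw [hM, map_zero])
  rw [hM, Matrix.scalar_apply, Matrix.det_diagonal, Finset.prod_const]
  exact pow_ne_zero _ hz

theorem comm_scalar {M : Matrix (Fin n) (Fin n) K} {z : K} (hM : M = Matrix.scalar (Fin n) z)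
    (Y : Matrix (Fin n) (Fin n) K) : M * Y = Y * M := by
  rw [hM]
  exact (Matrix.scalar_commute z (fun _ => Commute.all _ _) _).eq

/-- the powers of the substituted polynomial commute with the constants -/
theorem pow_comm [Infinite K] {ν : ℕ} (f : FreeAlgebra K σ) (hf : ScalarValued n (f ^ ν))
    (P : σ → (FreeAlgebra K τ)[X]) (X : τ → Matrix (Fin n) (Fin n) K)
    (Y : Matrix (Fin n) (Fin n) K) :
    (E X (FreeAlgebra.lift K P f)) ^ ν * C Y = C Y * (E X (FreeAlgebra.lift K P f)) ^ ν := by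
  rw [← map_pow, ← map_pow]
  apply comm_of_ev
  intro s
  rw [ev_E]
  exact hf _

/-- **Leading coefficients.** -/
theorem lead [Infinite K] {ν : ℕ} (hν : 0 < ν) (hνK : (ν : K) ≠ 0) (f : FreeAlgebra K σ)
    (hf : ScalarValued n (f ^ ν)) (P : σ → (FreeAlgebra K τ)[X]) (e : ℕ)
    (he : ¬ ScalarValued n ((FreeAlgebra.lift K P f).coeff e))
    (hgt : ∀ j, e < j → ScalarValued n ((FreeAlgebra.lift K P f).coeff j)) :
    (∀ j, e < j → Vanishes n ((FreeAlgebra.lift K P f).coeff j)) ∧
    ScalarValued n (((FreeAlgebra.lift K P f).coeff e) ^ ν) := by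
  classical
  set F := FreeAlgebra.lift K P f with hF
  have hvan : ∀ j, e < j → Vanishes n (F.coeff j) := by
    by_contra hcon
    push Not at hcon
    obtain ⟨j0, hj0, hj1⟩ := hcon
    -- the last coefficient which does not vanish
    have hjdeg : ∀ j, ¬ Vanishes n (F.coeff j) → j ≤ F.natDegree := by
      intro j hj
      by_contra h
      push Not at h
      apply hj
      intro X
      rw [Polynomial.coeff_eq_zero_of_natDegree_lt h, map_zero]
    set D := Nat.findGreatest (fun j => ¬ Vanishes n (F.coeff j)) F.natDegree with hD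
    have hD1 : ¬ Vanishes n (F.coeff D) :=
      Nat.findGreatest_spec (P := fun j => ¬ Vanishes n (F.coeff j)) (hjdeg j0 hj1) hj1
    have hD2 : j0 ≤ D := Nat.le_findGreatest (hjdeg j0 hj1) hj1
    have hD3 : ∀ j, D < j → Vanishes n (F.coeff j) := by
      intro j hj
      by_contra h
      exact Nat.findGreatest_is_greatest hj (hjdeg j h) h
    have heD : e < D := lt_of_lt_of_le hj0 hD2
    obtain ⟨m, rfl⟩ : ∃ m, ν = m + 1 := ⟨ν - 1, by omega⟩
    apply he
    have h0 : ∃ X : τ → Matrix (Fin n) (Fin n) K, (FreeAlgebra.lift K X (F.coeff D)).det ≠ 0 := by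
      unfold Vanishes at hD1
      push Not at hD1
      obtain ⟨X, hX⟩ := hD1
      obtain ⟨z, hz⟩ := hgt D heD X
      exact ⟨X, det_ne hz hX⟩
    apply scalar_of_comm'
    refine generic (F.coeff D) (F.coeff e) h0 (fun X hX Y => ?_)
    obtain ⟨z, hz⟩ := hgt D heD X
    have hz0 : z ^ m ≠ 0 ∨ n = 0 := by
      rcases Nat.eq_zero_or_pos n with hn | hn
      · exact Or.inr hn
      · left
        apply pow_ne_zero
        rintro rfl
        apply hX
        have : Nonempty (Fin n) := ⟨⟨0, hn⟩⟩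
        rw [hz, map_zero, Matrix.det_zero]
    set N := E X F with hN
    have hNdeg : N.natDegree ≤ D := by
      rw [Polynomial.natDegree_le_iff_coeff_eq_zero]
      intro k hk
      rw [hN, E_coeff]
      exact hD3 k hk X
    have hNz : N.coeff D = Matrix.scalar (Fin n) z := by rw [hN, E_coeff, hz]
    have hNe : (N * C Y - C Y * N).natDegree ≤ e := by
      rw [Polynomial.natDegree_le_iff_coeff_eq_zero]
      intro k hk
      rw [Polynomial.coeff_sub, Polynomial.coeff_mul_C, Polynomial.coeff_C_mul, hN, E_coeff]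
      obtain ⟨w, hw⟩ := hgt k hk X
      rw [comm_scalar hw Y, sub_self]
    have h1 := (comm_coeff N Y D e hNdeg z hNz hNe m).2
    have h2 : N ^ (m + 1) * C Y - C Y * N ^ (m + 1) = 0 := by
      rw [sub_eq_zero]
      exact pow_comm f hf P X Y
    rw [h2, Polynomial.coeff_zero, Polynomial.coeff_sub, Polynomial.coeff_mul_C,
      Polynomial.coeff_C_mul, hN, E_coeff] at h1
    rcases hz0 with hz0 | hn
    · have h3 := (smul_eq_zero.mp h1.symm).resolve_left (by exact_mod_cast hνK)
      have h4 := (smul_eq_zero.mp h3).resolve_left hz0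
      exact sub_eq_zero.mp h4
    · subst hn
      exact Subsingleton.elim _ _
  refine ⟨hvan, ?_⟩
  apply scalar_of_comm'
  intro X Y
  set N := E X F with hN
  have hNdeg : N.natDegree ≤ e := by
    rw [Polynomial.natDegree_le_iff_coeff_eq_zero]
    intro k hk
    rw [hN, E_coeff]
    exact hvan k hk X
  have h1 := congrArg (fun Q => Polynomial.coeff Q (ν * e)) (pow_comm f hf P X Y)
  simp only [Polynomial.coeff_mul_C, Polynomial.coeff_C_mul] at h1
  rw [← hF, ← hN, Polynomial.coeff_pow_of_natDegree_le hNdeg, hN, E_coeff, ← map_pow] at h1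
  exact h1

/-- a power-central polynomial is `ν`-central for a prime `ν` -/
theorem nu_of [Infinite K] {ν : ℕ} (hν : ν.Prime) (g : FreeAlgebra K σ)
    (hs : ScalarValued n (g ^ ν)) (hn : ¬ ScalarValued n g) : IsNuCentral n ν g := by
  have h0 : ∃ X : σ → Matrix (Fin n) (Fin n) K, FreeAlgebra.lift K X (g ^ ν) ≠ 0 := by
    by_contra hcon
    push Not at hcon
    apply hn
    intro X
    exact ⟨0, by rw [Pool.Agent.TH82.NC.vanish_of_pow n g ν hcon X, map_zero]⟩
  refine ⟨hν.pos, ⟨hs, h0⟩, ?_⟩
  intro μ hμ ⟨hμs, _⟩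
  by_contra hlt
  push Not at hlt
  apply hn
  obtain ⟨X0, hX0⟩ := h0
  obtain ⟨z0, hz0⟩ := hs X0
  apply scalar_of_comm'
  refine generic (g ^ ν) g ⟨X0, det_ne hz0 hX0⟩ (fun X hX Y => ?_)
  set M := FreeAlgebra.lift K X g with hM
  have c1 : M ^ ν * Y = Y * M ^ ν := by
    obtain ⟨z, hz⟩ := hs X
    rw [hM, ← map_pow]
    exact comm_scalar hz Y
  have c2 : M ^ μ * Y = Y * M ^ μ := by
    obtain ⟨z, hz⟩ := hμs X
    rw [hM, ← map_pow]
    exact comm_scalar hz Y
  have hdet : IsUnit M := by
    rw [Matrix.isUnit_iff_isUnit_det, isUnit_iff_ne_zero]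
    intro h
    apply hX
    rw [map_pow, Matrix.det_pow, ← hM, h, zero_pow hν.ne_zero]
  -- `μ a = ν b + 1`
  have hcop : Nat.Coprime μ ν := (Nat.coprime_of_lt_prime hμ.ne' hlt hν).symm
  obtain ⟨a, b, hab⟩ : ∃ a b : ℕ, μ * a = ν * b + 1 := by
    obtain ⟨a, ha⟩ := Nat.exists_mul_mod_eq_one_of_coprime hcop hν.one_lt
    refine ⟨a, μ * a / ν, ?_⟩
    have := Nat.div_add_mod (μ * a) ν
    rw [ha.2] at this
    exact this.symm
  have c3 : Commute (M ^ (μ * a)) Y := by
    rw [pow_mul]
    exact Commute.pow_left c2 a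
  have c4 : Commute (M ^ (ν * b)) Y := by
    rw [pow_mul]
    exact Commute.pow_left c1 b
  rw [hab, pow_succ] at c3
  have hU : IsUnit (M ^ (ν * b)) := hdet.pow _
  apply hU.mul_left_cancel
  calc M ^ (ν * b) * (M * Y) = M ^ (ν * b) * M * Y := by rw [mul_assoc]
    _ = Y * (M ^ (ν * b) * M) := c3
    _ = (Y * M ^ (ν * b)) * M := by rw [mul_assoc]
    _ = (M ^ (ν * b) * Y) * M := by rw [c4.eq]
    _ = M ^ (ν * b) * (Y * M) := by rw [mul_assoc]

theorem not_scalar {ν : ℕ} (hν : 1 < ν) (f : FreeAlgebra K σ) (h : IsNuCentral n ν f) :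
    ¬ ScalarValued n f := by
  intro hs
  obtain ⟨h1, ⟨h2, X, hX⟩, h3⟩ := h
  have := h3 1 one_pos (by
    rw [pow_one]
    refine ⟨hs, X, ?_⟩
    intro h0
    apply hX
    rw [map_pow, h0, zero_pow (by omega)])
  omega

/-- existence of a last coefficient which is not scalar valued -/
theorem exists_last (f : FreeAlgebra K σ) (P : σ → (FreeAlgebra K τ)[X]) (s : K)
    (X : τ → Matrix (Fin n) (Fin n) K)
    (h : ¬ ∃ c : K, FreeAlgebra.lift K (sub P X s) f = Matrix.scalar (Fin n) c) :
    ∃ e, ¬ ScalarValued n ((FreeAlgebra.lift K P f).coeff e) ∧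
      ∀ j, e < j → ScalarValued n ((FreeAlgebra.lift K P f).coeff j) := by
  classical
  set F := FreeAlgebra.lift K P f with hF
  have hdeg : ∀ j, ¬ ScalarValued n (F.coeff j) → j ≤ F.natDegree := by
    intro j hj
    by_contra h
    push Not at h
    apply hj
    intro X
    exact ⟨0, by rw [Polynomial.coeff_eq_zero_of_natDegree_lt h, map_zero, map_zero]⟩
  have hex : ∃ j, ¬ ScalarValued n (F.coeff j) := by
    by_contra hcon
    push Not at hcon
    apply h
    rw [← ev_E, ← hF, ev_eq s _ _ (Nat.lt_succ_self _)]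
    choose c hc using fun j => hcon j X
    refine ⟨∑ i ∈ Finset.range ((E X F).natDegree).succ, s ^ i * c i, ?_⟩
    rw [map_sum]
    refine Finset.sum_congr rfl fun i _ => ?_
    rw [E_coeff, hc, map_mul, scalar_mul' (s ^ i)]
  obtain ⟨j, hj⟩ := hex
  refine ⟨Nat.findGreatest (fun j => ¬ ScalarValued n (F.coeff j)) F.natDegree,
    Nat.findGreatest_spec (P := fun j => ¬ ScalarValued n (F.coeff j)) (hdeg j hj) hj, ?_⟩
  intro i hi
  by_contra hcon
  exact Nat.findGreatest_is_greatest hi (hdeg i hcon) hcon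

end Subst

/-! ### Invariance -/

section Inv

variable {n : ℕ}

/-- `f` takes the same value at `R`-related tuples. -/
def Inv (R : (σ → Matrix (Fin n) (Fin n) K) → (σ → Matrix (Fin n) (Fin n) K) → Prop)
    (f : FreeAlgebra K σ) : Prop :=
  ∀ X X', R X X' → FreeAlgebra.lift K X f = FreeAlgebra.lift K X' f

theorem inv_coeff [Infinite K] (P : σ → (FreeAlgebra K σ)[X])
    (R : (σ → Matrix (Fin n) (Fin n) K) → (σ → Matrix (Fin n) (Fin n) K) → Prop)
    (hR : ∀ s : K, s ≠ 0 → ∀ X X', R X X' → R (sub P X s) (sub P X' s))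
    (f : FreeAlgebra K σ) (hf : Inv R f) (k : ℕ) : Inv R ((FreeAlgebra.lift K P f).coeff k) := by
  intro X X' hX
  rw [← E_coeff, ← E_coeff]
  congr 1
  apply ev_inj
  intro s hs
  rw [ev_E, ev_E]
  exact hf _ _ (hR s hs _ _ hX)

theorem taylor_coeff_top (p : K[X]) (c : K) (e : ℕ) (h : p.natDegree ≤ e) :
    (Polynomial.taylor c p).coeff e = p.coeff e := by
  rcases Nat.lt_or_ge p.natDegree e with h1 | h1
  · rw [Polynomial.coeff_eq_zero_of_natDegree_lt h1,
      Polynomial.coeff_eq_zero_of_natDegree_lt (by rw [Polynomial.natDegree_taylor]; exact h1)]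
  · have h2 : e = p.natDegree := le_antisymm h1 h
    subst h2
    rw [Polynomial.coeff_taylor_natDegree]
    rfl

/-- the leading coefficient with respect to a one-parameter group is invariant -/
theorem group_inv [Infinite K] (P : σ → (FreeAlgebra K σ)[X]) (X : σ → Matrix (Fin n) (Fin n) K)
    (c : K) (hP : ∀ s : K, sub P (sub P X c) s = sub P X (s + c)) (f : FreeAlgebra K σ) (e : ℕ)
    (he : ∀ j, e < j → Vanishes n ((FreeAlgebra.lift K P f).coeff j)) :
    FreeAlgebra.lift K (sub P X c) ((FreeAlgebra.lift K P f).coeff e) =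
      FreeAlgebra.lift K X ((FreeAlgebra.lift K P f).coeff e) := by
  have hdeg : ∀ Y : σ → Matrix (Fin n) (Fin n) K,
      (E Y (FreeAlgebra.lift K P f)).natDegree ≤ e := by
    intro Y
    rw [Polynomial.natDegree_le_iff_coeff_eq_zero]
    intro k hk
    rw [E_coeff]
    exact he k hk Y
  rw [← E_coeff, ← E_coeff]
  ext1 a b
  rw [← ent_coeff, ← ent_coeff, ← taylor_coeff_top (ent (E X (FreeAlgebra.lift K P f)) a b) c e
    (ent_natDegree _ _ _ _ (hdeg X))]
  congr 1
  apply Polynomial.funext
  intro s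
  rw [Polynomial.taylor_eval, ent_eval, ent_eval, ev_E, ev_E, hP]

end Inv

/-! ### Words -/

section Words

theorem span_words (f : FreeAlgebra K σ) : f ∈ Submodule.span K {w : FreeAlgebra K σ |
    ∃ l : List σ, True ∧ w = (l.map (FreeAlgebra.ι K)).prod} := by
  induction f using FreeAlgebra.induction with
  | grade0 c =>
    rw [Algebra.algebraMap_eq_smul_one]
    exact Submodule.smul_mem _ _ (Submodule.subset_span ⟨[], trivial, by simp⟩)
  | grade1 i => exact Submodule.subset_span ⟨[i], trivial, by simp⟩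
  | mul a b ha hb =>
    have h := Submodule.mul_mem_mul ha hb
    rw [Submodule.span_mul_span] at h
    refine Submodule.span_mono ?_ h
    rintro w ⟨u, ⟨l, -, rfl⟩, v, ⟨l', -, rfl⟩, rfl⟩
    exact ⟨l ++ l', trivial, by simp⟩
  | add a b ha hb => exact Submodule.add_mem _ ha hb

/-- scaling of one variable by the parameter -/
noncomputable def scal (i : Fin 2) : Fin 2 → (FreeAlgebra K (Fin 2))[X] := fun j =>
  if j = i then X * C (FreeAlgebra.ι K j) else C (FreeAlgebra.ι K j)

theorem lift_word (i : Fin 2) (l : List (Fin 2)) :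
    FreeAlgebra.lift K (scal (K := K) i) ((l.map (FreeAlgebra.ι K)).prod) =
      X ^ (l.count i) * C ((l.map (FreeAlgebra.ι K)).prod) := by
  induction l with
  | nil => simp
  | cons a l ih =>
    rw [List.map_cons, List.prod_cons, map_mul, ih, FreeAlgebra.lift_ι_apply]
    unfold scal
    by_cases h : a = i
    · subst h
      have hc := (Polynomial.commute_X_pow (C (FreeAlgebra.ι K a)) (l.count a)).eq
      rw [if_pos rfl, List.count_cons_self, C_mul, pow_succ']
      simp only [mul_assoc]
      congr 1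
      rw [← mul_assoc, ← hc, mul_assoc]
    · have hc := (Polynomial.commute_X_pow (C (FreeAlgebra.ι K a)) (l.count i)).eq
      rw [if_neg h, List.count_cons_of_ne h, C_mul, ← mul_assoc, ← hc, mul_assoc]

theorem coeff_mem (i : Fin 2) (p : List (Fin 2) → Prop) (f : FreeAlgebra K (Fin 2))
    (hf : f ∈ Submodule.span K {w : FreeAlgebra K (Fin 2) |
      ∃ l : List (Fin 2), p l ∧ w = (l.map (FreeAlgebra.ι K)).prod}) (k : ℕ) :
    (FreeAlgebra.lift K (scal (K := K) i) f).coeff k ∈
      Submodule.span K {w : FreeAlgebra K (Fin 2) |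
        ∃ l : List (Fin 2), (p l ∧ l.count i = k) ∧ w = (l.map (FreeAlgebra.ι K)).prod} := by
  induction hf using Submodule.span_induction with
  | mem w hw =>
    obtain ⟨l, hl, rfl⟩ := hw
    rw [lift_word, Polynomial.coeff_X_pow_mul', Polynomial.coeff_C]
    by_cases h : l.count i = k
    · rw [if_pos h.le, if_pos (by omega)]
      exact Submodule.subset_span ⟨l, ⟨hl, h⟩, rfl⟩
    · split_ifs with h1 h2
      · omega
      · exact Submodule.zero_mem _
      · exact Submodule.zero_mem _
  | zero => rw [map_zero, Polynomial.coeff_zero]; exact Submodule.zero_mem _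
  | add a b _ _ ha hb => rw [map_add, Polynomial.coeff_add]; exact Submodule.add_mem _ ha hb
  | smul c a _ ha =>
    rw [map_smul, Polynomial.coeff_smul]
    exact Submodule.smul_mem _ _ ha

end Words

/-! ### Two variables -/

section Two

variable {n : ℕ}

/-- two matrices which generate the algebra of all matrices -/
def gens (K : Type*) [Field K] (n : ℕ) [NeZero n] : Fin 2 → Matrix (Fin n) (Fin n) K :=
  ![Matrix.single (0 : Fin n) 0 (1 : K),
      Matrix.of fun i j : Fin n => if i = j + 1 then (1 : K) else 0]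

theorem exists_word [NeZero n] (M : Matrix (Fin n) (Fin n) K) : ∃ u : FreeAlgebra K (Fin 2),
    FreeAlgebra.lift K (gens K n) u = M := by
  unfold gens
  set A : Matrix (Fin n) (Fin n) K := Matrix.single 0 0 1 with hA
  set B : Matrix (Fin n) (Fin n) K := Matrix.of fun i j : Fin n => if i = j + 1 then 1 else 0
    with hB
  have hpow : ∀ (m : ℕ) (i j : Fin n), (B ^ m) i j = if i = j + m • (1 : Fin n) then 1 else 0 := by
    intro m
    induction m with
    | zero =>
      intro i j
      rw [pow_zero, Matrix.one_apply, zero_nsmul, add_zero]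
    | succ m ih =>
      intro i j
      rw [pow_succ, Matrix.mul_apply, Finset.sum_eq_single (j + 1)]
      · rw [ih, hB, Matrix.of_apply, if_pos rfl, mul_one]
        rw [succ_nsmul, add_assoc, add_comm (1 : Fin n)]
      · intro k _ hk
        rw [hB, Matrix.of_apply, if_neg hk, mul_zero]
      · intro h
        exact absurd (Finset.mem_univ _) h
  have hrange : ∀ M : Matrix (Fin n) (Fin n) K, M ∈ (FreeAlgebra.lift K ![A, B]).range := by
    intro M
    rw [Matrix.matrix_eq_sum_single M]
    refine Subalgebra.sum_mem _ fun i _ => Subalgebra.sum_mem _ fun j _ => ?_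
    have h1 : Matrix.single i j (M i j) = M i j • (B ^ (i : ℕ) * A * B ^ ((-j : Fin n) : ℕ)) := by
      ext a b
      rw [Matrix.smul_apply, Matrix.mul_apply, Finset.sum_eq_single (0 : Fin n)]
      · rw [Matrix.mul_apply, Finset.sum_eq_single (0 : Fin n)]
        · rw [hpow, hpow, hA, Matrix.single_apply_same, mul_one, zero_add,
            Pool.Agent.TH82.NC.val_nsmul_one, Pool.Agent.TH82.NC.val_nsmul_one,
            Matrix.single_apply, smul_eq_mul]
          by_cases h2 : i = a
          · subst h2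
            by_cases h3 : j = b
            · subst h3
              simp
            · rw [if_neg (fun h => h3 h.2), if_pos rfl, if_neg, mul_zero, mul_zero]
              intro h4
              apply h3
              have : b - j = 0 := by rw [sub_eq_add_neg]; exact h4.symm
              exact (sub_eq_zero.mp this).symm
          · rw [if_neg (fun h => h2 h.1), if_neg (fun h => h2 h.symm), zero_mul, mul_zero]
        · intro k _ hk
          rw [hA, Matrix.single_apply, if_neg (fun h => hk h.1.symm), mul_zero]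
        · intro h
          exact absurd (Finset.mem_univ _) h
      · intro k _ hk
        rw [Matrix.mul_apply]
        rw [Finset.sum_eq_zero, zero_mul]
        intro l _
        rw [hA, Matrix.single_apply, if_neg (fun h => hk h.2.symm), mul_zero]
      · intro h
        exact absurd (Finset.mem_univ _) h
    rw [h1]
    apply Subalgebra.smul_mem
    have hAr : A ∈ (FreeAlgebra.lift K ![A, B]).range :=
      ⟨FreeAlgebra.ι K 0, by simp⟩
    have hBr : B ∈ (FreeAlgebra.lift K ![A, B]).range :=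
      ⟨FreeAlgebra.ι K 1, by simp⟩
    exact mul_mem (mul_mem (pow_mem hBr _) hAr) (pow_mem hBr _)
  obtain ⟨u, hu⟩ := hrange M
  exact ⟨u, hu⟩

theorem to_two [NeZero n] {ν : ℕ} (f : FreeAlgebra K σ) (hf : ScalarValued n (f ^ ν))
    (hf' : ¬ ScalarValued n f) : ∃ g : FreeAlgebra K (Fin 2),
      ScalarValued n (g ^ ν) ∧ ¬ ScalarValued n g := by
  unfold ScalarValued at hf'
  push Not at hf'
  obtain ⟨X, hX⟩ := hf'
  choose u hu using fun i => exists_word (X i)
  refine ⟨FreeAlgebra.lift K u f, ?_, ?_⟩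
  · intro Y
    rw [← map_pow, lift_map (FreeAlgebra.lift K Y)]
    exact hf _
  · intro h
    obtain ⟨c, hc⟩ := h (gens K n)
    rw [lift_map (FreeAlgebra.lift K (gens K n))] at hc
    simp only [hu] at hc
    exact hX c hc

end Two

/-! ### The normal form -/

section Normal

variable {n : ℕ}

theorem ev_E_C (X : τ → Matrix (Fin n) (Fin n) K) (s : K) (a : FreeAlgebra K τ) :
    ev s (E X (C a)) = FreeAlgebra.lift K X a := by
  unfold E ev
  simp

theorem ev_E_X (X : τ → Matrix (Fin n) (Fin n) K) (s : K) :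
    ev s (E X Polynomial.X) = algebraMap K (Matrix (Fin n) (Fin n) K) s := by
  unfold E ev
  simp

/-- one step: a leading coefficient which keeps an invariance -/
theorem step [Infinite K] {ν : ℕ} (hν : 0 < ν) (hνK : (ν : K) ≠ 0) (f : FreeAlgebra K σ)
    (hf : ScalarValued n (f ^ ν)) (hf' : ¬ ScalarValued n f) (P : σ → (FreeAlgebra K σ)[X])
    (s : K) (hs : ∀ X : σ → Matrix (Fin n) (Fin n) K, sub P X s = X) :
    ∃ e, ScalarValued n (((FreeAlgebra.lift K P f).coeff e) ^ ν) ∧
      ¬ ScalarValued n ((FreeAlgebra.lift K P f).coeff e) ∧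
      ∀ j, e < j → Vanishes n ((FreeAlgebra.lift K P f).coeff j) := by
  have h1 := hf'
  unfold ScalarValued at h1
  push Not at h1
  obtain ⟨X, hX⟩ := h1
  obtain ⟨e, he1, he2⟩ := exists_last f P s X (by
    rw [hs]
    rintro ⟨c, hc⟩
    exact hX c hc)
  obtain ⟨h2, h3⟩ := lead hν hνK f hf P e he1 he2
  exact ⟨e, h3, he1, h2⟩

/-- `y ↦ y + s x ^ j` -/
noncomputable def shiftP (K : Type*) [Field K] (j : ℕ) : Fin 2 → (FreeAlgebra K (Fin 2))[X] :=
  ![C (FreeAlgebra.ι K 0), C (FreeAlgebra.ι K 1) + X * C (FreeAlgebra.ι K 0 ^ j)]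

theorem sub_shiftP (j : ℕ) (Y : Fin 2 → Matrix (Fin n) (Fin n) K) (s : K) :
    sub (shiftP K j) Y s = ![Y 0, Y 1 + s • Y 0 ^ j] := by
  funext i
  fin_cases i
  · change ev s (E Y (C (FreeAlgebra.ι K 0))) = Y 0
    rw [ev_E_C, FreeAlgebra.lift_ι_apply]
  · change ev s (E Y (C (FreeAlgebra.ι K 1) + X * C (FreeAlgebra.ι K 0 ^ j))) = Y 1 + s • Y 0 ^ j
    rw [map_add, map_add, map_mul, map_mul, ev_E_C, ev_E_C, ev_E_X, map_pow,
      FreeAlgebra.lift_ι_apply, FreeAlgebra.lift_ι_apply, Algebra.smul_def]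

/-- `x ↦ x + s` -/
noncomputable def transP (K : Type*) [Field K] : Fin 2 → (FreeAlgebra K (Fin 2))[X] :=
  ![C (FreeAlgebra.ι K 0) + X, C (FreeAlgebra.ι K 1)]

theorem sub_transP (Y : Fin 2 → Matrix (Fin n) (Fin n) K) (s : K) :
    sub (transP K) Y s = ![Y 0 + algebraMap K _ s, Y 1] := by
  funext i
  fin_cases i
  · change ev s (E Y (C (FreeAlgebra.ι K 0) + X)) = Y 0 + algebraMap K _ s
    rw [map_add, map_add, ev_E_C, ev_E_X, FreeAlgebra.lift_ι_apply]
  · change ev s (E Y (C (FreeAlgebra.ι K 1))) = Y 1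
    rw [ev_E_C, FreeAlgebra.lift_ι_apply]

theorem sub_scal (i : Fin 2) (Y : Fin 2 → Matrix (Fin n) (Fin n) K) (s : K) (j : Fin 2) :
    sub (scal (K := K) i) Y s j = if j = i then s • Y j else Y j := by
  unfold sub scal
  split_ifs with h
  · rw [map_mul, map_mul, ev_E_C, ev_E_X, FreeAlgebra.lift_ι_apply, Algebra.smul_def]
  · rw [ev_E_C, FreeAlgebra.lift_ι_apply]

/-- `X'` arises from `X` by adding a multiple of the `i`-th power of the first matrix to the
second one. -/
def RS (i : ℕ) (Y Y' : Fin 2 → Matrix (Fin n) (Fin n) K) : Prop :=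
  ∃ c : K, Y' = ![Y 0, Y 1 + c • Y 0 ^ i]

/-- `X'` arises from `X` by adding a polynomial in the first matrix to the second one. -/
def RA (Y Y' : Fin 2 → Matrix (Fin n) (Fin n) K) : Prop :=
  Y' 0 = Y 0 ∧ Y' 1 - Y 1 ∈ Algebra.adjoin K {Y 0}

/-- `X'` arises from `X` by adding a scalar to the first matrix. -/
def RT (Y Y' : Fin 2 → Matrix (Fin n) (Fin n) K) : Prop :=
  ∃ c : K, Y' 0 = Y 0 + algebraMap K _ c ∧ Y' 1 = Y 1

theorem shifts [Infinite K] {ν : ℕ} (hν : 0 < ν) (hνK : (ν : K) ≠ 0)
    (f : FreeAlgebra K (Fin 2)) (hf : ScalarValued n (f ^ ν)) (hf' : ¬ ScalarValued n f) (m : ℕ) :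
    ∃ g : FreeAlgebra K (Fin 2), ScalarValued n (g ^ ν) ∧ ¬ ScalarValued n g ∧
      ∀ i < m, Inv (n := n) (RS i) g := by
  induction m with
  | zero => exact ⟨f, hf, hf', fun i hi => absurd hi (Nat.not_lt_zero i)⟩
  | succ m ih =>
    obtain ⟨g, h1, h2, h3⟩ := ih
    obtain ⟨e, he1, he2, he3⟩ := step hν hνK g h1 h2 (shiftP K m) 0 (fun Y => by
      rw [sub_shiftP]
      funext i
      fin_cases i
      · rfl
      · simp)
    refine ⟨_, he1, he2, fun i hi => ?_⟩
    rcases Nat.lt_succ_iff_lt_or_eq.mp hi with hi | rfl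
    · refine inv_coeff (shiftP K m) (RS i) ?_ g (h3 i hi) e
      rintro s - Y _ ⟨c, rfl⟩
      refine ⟨c, ?_⟩
      rw [sub_shiftP, sub_shiftP]
      funext j
      fin_cases j
      · rfl
      · change Y 1 + c • Y 0 ^ i + s • Y 0 ^ m = Y 1 + s • Y 0 ^ m + c • Y 0 ^ i
        abel
    · rintro Y _ ⟨c, rfl⟩
      rw [← sub_shiftP]
      refine (group_inv (shiftP K i) Y c (fun s => ?_) g e he3).symm
      rw [sub_shiftP, sub_shiftP, sub_shiftP]
      funext j
      fin_cases j
      · rfl
      · change Y 1 + c • Y 0 ^ i + s • Y 0 ^ i = Y 1 + (s + c) • Y 0 ^ i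
        rw [add_smul]
        abel

/-- shifts by all polynomials -/
theorem inv_RA (g : FreeAlgebra K (Fin 2)) (h : ∀ i < n, Inv (n := n) (RS i) g) :
    Inv (n := n) RA g := by
  rintro Y Y' ⟨h0, h1⟩
  rw [Algebra.adjoin_singleton_eq_range_aeval] at h1
  obtain ⟨p, hp⟩ := h1
  have hp' : Y' 1 = Y 1 + Polynomial.aeval (Y 0) p := by
    have : Polynomial.aeval (Y 0) p = Y' 1 - Y 1 := hp
    rw [this]
    abel
  set q := p %ₘ (Y 0).charpoly with hq
  have hpq : Polynomial.aeval (Y 0) p = Polynomial.aeval (Y 0) q := by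
    have h2 := Polynomial.modByMonic_add_div p (Y 0).charpoly
    conv_lhs => rw [← h2]
    rw [map_add, map_mul, Matrix.aeval_self_charpoly, zero_mul, add_zero]
  have hsum : ∀ k ≤ n, FreeAlgebra.lift K
      ![Y 0, Y 1 + ∑ i ∈ Finset.range k, q.coeff i • Y 0 ^ i] g = FreeAlgebra.lift K Y g := by
    intro k
    induction k with
    | zero =>
      intro _
      congr 2
      funext i
      fin_cases i
      · rfl
      · simp
    | succ k ih =>
      intro hk
      rw [← ih (by omega)]
      symm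
      apply h k (by omega)
      refine ⟨q.coeff k, ?_⟩
      funext i
      fin_cases i
      · rfl
      · change Y 1 + ∑ i ∈ Finset.range (k + 1), q.coeff i • Y 0 ^ i =
          Y 1 + ∑ i ∈ Finset.range k, q.coeff i • Y 0 ^ i + q.coeff k • Y 0 ^ k
        rw [Finset.sum_range_succ, add_assoc]
  rw [← hsum n le_rfl]
  congr 2
  funext i
  fin_cases i
  · exact h0.symm
  · change Y 1 + ∑ i ∈ Finset.range n, q.coeff i • Y 0 ^ i = Y' 1
    rw [hp', hpq]
    congr 1
    rcases Nat.eq_zero_or_pos n with hn | hn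
    · subst hn
      exact Subsingleton.elim _ _
    rw [Polynomial.aeval_eq_sum_range' (n := n)]
    have h3 : (Y 0).charpoly.natDegree = n := by
      rw [Matrix.charpoly_natDegree_eq_dim, Fintype.card_fin]
    have : Nonempty (Fin n) := ⟨⟨0, hn⟩⟩
    have h4 := Polynomial.natDegree_modByMonic_lt p (Matrix.charpoly_monic (Y 0)) (by
      intro h5
      rw [h5, Polynomial.natDegree_one] at h3
      omega)
    rw [h3] at h4
    exact h4

theorem adjoin_trans {A Z : Matrix (Fin n) (Fin n) K} (c : K)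
    (h : Z ∈ Algebra.adjoin K {A}) : Z ∈ Algebra.adjoin K {A + algebraMap K _ c} := by
  refine (Algebra.adjoin_le ?_ : Algebra.adjoin K {A} ≤ _) h
  rw [Set.singleton_subset_iff, SetLike.mem_coe]
  have h1 : A + algebraMap K _ c ∈ Algebra.adjoin K {A + algebraMap K _ c} :=
    Algebra.self_mem_adjoin_singleton K _
  have h2 := Subalgebra.sub_mem _ h1 (Subalgebra.algebraMap_mem _ c)
  rwa [add_sub_cancel_right] at h2

theorem adjoin_smul {A Z : Matrix (Fin n) (Fin n) K} {s : K} (hs : s ≠ 0)
    (h : Z ∈ Algebra.adjoin K {A}) : Z ∈ Algebra.adjoin K {s • A} := by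
  refine (Algebra.adjoin_le ?_ : Algebra.adjoin K {A} ≤ _) h
  rw [Set.singleton_subset_iff, SetLike.mem_coe]
  have h1 : s • A ∈ Algebra.adjoin K {s • A} := Algebra.self_mem_adjoin_singleton K _
  have h2 := Subalgebra.smul_mem _ h1 s⁻¹
  rwa [smul_smul, inv_mul_cancel₀ hs, one_smul] at h2

theorem RA_scal (i : Fin 2) (s : K) (hs : s ≠ 0) (Y Y' : Fin 2 → Matrix (Fin n) (Fin n) K)
    (h : RA Y Y') : RA (sub (scal (K := K) i) Y s) (sub (scal (K := K) i) Y' s) := by
  obtain ⟨h0, h1⟩ := h
  have hi : i = 0 ∨ i = 1 := by omega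
  rcases hi with rfl | rfl
  · have e0 : ∀ W : Fin 2 → Matrix (Fin n) (Fin n) K, sub (scal (K := K) 0) W s 0 = s • W 0 :=
      fun W => by rw [sub_scal, if_pos rfl]
    have e1 : ∀ W : Fin 2 → Matrix (Fin n) (Fin n) K, sub (scal (K := K) 0) W s 1 = W 1 :=
      fun W => by rw [sub_scal, if_neg (by decide)]
    refine ⟨?_, ?_⟩
    · rw [e0, e0, h0]
    · rw [e1, e1, e0]
      exact adjoin_smul hs h1
  · have e0 : ∀ W : Fin 2 → Matrix (Fin n) (Fin n) K, sub (scal (K := K) 1) W s 0 = W 0 :=
      fun W => by rw [sub_scal, if_neg (by decide)]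
    have e1 : ∀ W : Fin 2 → Matrix (Fin n) (Fin n) K, sub (scal (K := K) 1) W s 1 = s • W 1 :=
      fun W => by rw [sub_scal, if_pos rfl]
    refine ⟨?_, ?_⟩
    · rw [e0, e0, h0]
    · rw [e1, e1, e0, ← smul_sub]
      exact Subalgebra.smul_mem _ h1 s

theorem RT_scal (i : Fin 2) (s : K) (_hs : s ≠ 0) (Y Y' : Fin 2 → Matrix (Fin n) (Fin n) K)
    (h : RT Y Y') : RT (sub (scal (K := K) i) Y s) (sub (scal (K := K) i) Y' s) := by
  obtain ⟨c, h0, h1⟩ := h
  have hi : i = 0 ∨ i = 1 := by omega
  rcases hi with rfl | rfl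
  · have e0 : ∀ W : Fin 2 → Matrix (Fin n) (Fin n) K, sub (scal (K := K) 0) W s 0 = s • W 0 :=
      fun W => by rw [sub_scal, if_pos rfl]
    have e1 : ∀ W : Fin 2 → Matrix (Fin n) (Fin n) K, sub (scal (K := K) 0) W s 1 = W 1 :=
      fun W => by rw [sub_scal, if_neg (by decide)]
    refine ⟨s * c, ?_, ?_⟩
    · rw [e0, e0, h0, smul_add, map_mul, Algebra.smul_def, Algebra.smul_def]
    · rw [e1, e1, h1]
  · have e0 : ∀ W : Fin 2 → Matrix (Fin n) (Fin n) K, sub (scal (K := K) 1) W s 0 = W 0 :=
      fun W => by rw [sub_scal, if_neg (by decide)]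
    have e1 : ∀ W : Fin 2 → Matrix (Fin n) (Fin n) K, sub (scal (K := K) 1) W s 1 = s • W 1 :=
      fun W => by rw [sub_scal, if_pos rfl]
    refine ⟨c, ?_, ?_⟩
    · rw [e0, e0, h0]
    · rw [e1, e1, h1]

theorem normal_form [Infinite K] {ν : ℕ} (hν : 0 < ν) (hνK : (ν : K) ≠ 0)
    (f : FreeAlgebra K (Fin 2)) (hf : ScalarValued n (f ^ ν)) (hf' : ¬ ScalarValued n f) :
    ∃ (g : FreeAlgebra K (Fin 2)) (d e : ℕ), ScalarValued n (g ^ ν) ∧ ¬ ScalarValued n g ∧
      Bihomogeneous d e g ∧ Inv (n := n) RA g ∧ Inv (n := n) RT g := by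
  obtain ⟨g1, a1, a2, a3⟩ := shifts hν hνK f hf hf' n
  have a4 := inv_RA g1 a3
  -- translations of `x`
  obtain ⟨e2, b1, b2, b3⟩ := step hν hνK g1 a1 a2 (transP K) 0 (fun Y => by
    rw [sub_transP]
    funext i
    fin_cases i
    · simp
    · rfl)
  set g2 := (FreeAlgebra.lift K (transP K) g1).coeff e2 with hg2
  have b4 : Inv (n := n) RA g2 := by
    refine inv_coeff (transP K) RA ?_ g1 a4 e2
    rintro s - Y Y' ⟨h0, h1⟩
    rw [sub_transP, sub_transP]
    refine ⟨?_, ?_⟩
    · change Y' 0 + _ = Y 0 + _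
      rw [h0]
    · exact adjoin_trans s h1
  have b5 : Inv (n := n) RT g2 := by
    rintro Y Y' ⟨c, h0, h1⟩
    have h2 : Y' = sub (transP K) Y c := by
      rw [sub_transP]
      funext i
      fin_cases i
      · exact h0
      · exact h1
    rw [h2]
    refine (group_inv (transP K) Y c (fun s => ?_) g1 e2 b3).symm
    rw [sub_transP, sub_transP, sub_transP]
    funext j
    fin_cases j
    · change Y 0 + algebraMap K _ c + algebraMap K _ s = Y 0 + algebraMap K _ (s + c)
      rw [map_add]
      abel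
    · rfl
  -- homogeneity
  have hone : ∀ (i : Fin 2) (Y : Fin 2 → Matrix (Fin n) (Fin n) K),
      sub (scal (K := K) i) Y 1 = Y := by
    intro i Y
    funext j
    rw [sub_scal, one_smul, ite_self]
  obtain ⟨d, c1, c2, -⟩ := step hν hνK g2 b1 b2 (scal 0) 1 (hone 0)
  set g3 := (FreeAlgebra.lift K (scal (K := K) 0) g2).coeff d with hg3
  have c4 : Inv (n := n) RA g3 := inv_coeff (scal 0) RA (RA_scal 0) g2 b4 d
  have c5 : Inv (n := n) RT g3 := inv_coeff (scal 0) RT (RT_scal 0) g2 b5 d
  have c6 := coeff_mem 0 (fun _ => True) g2 (span_words g2) d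
  obtain ⟨e, d1, d2, -⟩ := step hν hνK g3 c1 c2 (scal 1) 1 (hone 1)
  have d6 := coeff_mem 1 _ g3 c6 e
  refine ⟨_, d, e, d1, d2, ?_, inv_coeff (scal 1) RA (RA_scal 1) g3 c4 e,
    inv_coeff (scal 1) RT (RT_scal 1) g3 c5 e⟩
  unfold Bihomogeneous
  refine Submodule.span_mono ?_ d6
  rintro w ⟨l, ⟨⟨-, h1⟩, h2⟩, rfl⟩
  exact ⟨l, h1, h2, rfl⟩

end Normal

/-- Bihomogeneous polynomials of small degree in one of the variables are not `ν`-central; this is
the starting result `OtherVariablesDegree`. -/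
theorem degrees [Infinite K] {n : ℕ} (hn : 5 ≤ n) (hn6 : n.Coprime 6) {ν : ℕ} (hν : 1 < ν)
    (g : FreeAlgebra K (Fin 2)) (d e : ℕ) (hg : IsNuCentral n ν g) (hde : Bihomogeneous d e g) :
    n < d ∧ n < e := by
  have key : ∀ (i j : Fin 2), i ≠ j → (∀ l : List (Fin 2), l.count 0 = d → l.count 1 = e →
      l.count j ≤ n) → False := by
    intro i j hij h
    have hg' : Pool.Agent.Results.MP_5d2531_al.OtherVariablesDegree.AtMostOutside
        ({i} : Set (Fin 2)) n g := by
      refine Submodule.span_mono ?_ hde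
      rintro w ⟨l, h0, h1, rfl⟩
      refine ⟨l, ?_, rfl⟩
      have h2 := h l h0 h1
      have h3 : Pool.Agent.Results.MP_5d2531_al.OtherVariablesDegree.lettersOutside
          ({i} : Set (Fin 2)) l = l.count j := by
        classical
        rw [Pool.Agent.Results.MP_5d2531_al.OtherVariablesDegree.lettersOutside, List.count]
        refine List.countP_congr fun s _ => ?_
        rw [beq_iff_eq]
        simp only [Set.mem_singleton_iff, decide_eq_true_eq]
        constructor
        · intro h'; omega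
        · intro h'; omega
      rw [h3]
      exact h2
    have h0 : Pool.Agent.Results.MP_5d2531_al.OtherVariablesDegree.MoreThanOutside
        ({i} : Set (Fin 2)) n (0 : FreeAlgebra K (Fin 2)) := Submodule.zero_mem _
    have h1 := (Pool.Agent.Results.MP_5d2531_al.OtherVariablesDegree.result n hn hn6 ν
      (by omega) {i} g 0 hg' h0 (by rw [add_zero]; exact hg.2.1.1)).2.2
      Set.subsingleton_singleton hν (by rw [add_zero]; exact hg)
    exact h1 rfl
  refine ⟨?_, ?_⟩
  · by_contra h
    exact key 1 0 (by decide) (fun l h0 _ => by omega)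
  · by_contra h
    exact key 0 1 (by decide) (fun l _ h1 => by omega)

/-- Let `K` be an infinite field, `ν` a prime which is not zero in `K`, `n` any integer and `f` a
`ν`-central polynomial for `M_n(K)`.
(1) Replace the variables of `f` by polynomials `P i` in the central indeterminate `X` whose
coefficients are noncommutative polynomials in other variables, and let `e` be the index of the last
coefficient of the result which has a value that is not scalar. Then this coefficient is
`ν`-central and all later coefficients vanish identically on `M_n(K)`.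
(2) There is a `ν`-central polynomial `g` in two variables for `M_n(K)`, homogeneous in each of
them, with `g (A + c, B + Z) = g (A, B)` for all matrices `A`, `B`, all scalars `c` and all `Z` which
are polynomials in `A`. If `n ≥ 5` is prime to `6`, both degrees of `g` are larger than `n`. -/
theorem result {K : Type*} [Field K] [Infinite K] {σ : Type*} (n ν : ℕ) (hν : ν.Prime)
    (hνK : (ν : K) ≠ 0) (f : FreeAlgebra K σ) (hf : IsNuCentral n ν f) :
    (∀ (τ : Type) (P : σ → (FreeAlgebra K τ)[X]) (e : ℕ),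
      ¬ ScalarValued n ((FreeAlgebra.lift K P f).coeff e) →
      (∀ j, e < j → ScalarValued n ((FreeAlgebra.lift K P f).coeff j)) →
      IsNuCentral n ν ((FreeAlgebra.lift K P f).coeff e) ∧
        ∀ j, e < j → Vanishes n ((FreeAlgebra.lift K P f).coeff j)) ∧
    ∃ (g : FreeAlgebra K (Fin 2)) (d e : ℕ), IsNuCentral n ν g ∧ Bihomogeneous d e g ∧
      (∀ (A B Z : Matrix (Fin n) (Fin n) K) (c : K), Z ∈ Algebra.adjoin K {A} →
        FreeAlgebra.lift K ![A + Matrix.scalar (Fin n) c, B + Z] g =
          FreeAlgebra.lift K ![A, B] g) ∧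
      (5 ≤ n → n.Coprime 6 → n < d ∧ n < e) := by
  have hs := not_scalar hν.one_lt f hf
  refine ⟨fun τ P e he hgt => ?_, ?_⟩
  · obtain ⟨h1, h2⟩ := lead hν.pos hνK f hf.2.1.1 P e he hgt
    exact ⟨nu_of hν _ h2 he, h1⟩
  · rcases Nat.eq_zero_or_pos n with hn | hn
    · subst hn
      exact absurd (fun X => ⟨0, Subsingleton.elim _ _⟩) hs
    have : NeZero n := ⟨hn.ne'⟩
    obtain ⟨f2, h1, h2⟩ := to_two f hf.2.1.1 hs
    obtain ⟨g, d, e, h3, h4, h5, h6, h7⟩ := normal_form hν.pos hνK f2 h1 h2
    refine ⟨g, d, e, nu_of hν g h3 h4, h5, fun A B Z c hZ => ?_,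
      fun h8 h9 => degrees h8 h9 hν.one_lt g d e (nu_of hν g h3 h4) h5⟩
    have e1 := h6 ![A + Matrix.scalar (Fin n) c, B] ![A + Matrix.scalar (Fin n) c, B + Z]
      ⟨rfl, by
        change B + Z - B ∈ Algebra.adjoin K {A + algebraMap K _ c}
        rw [add_sub_cancel_left]
        exact adjoin_trans c hZ⟩
    have e2 := h7 ![A, B] ![A + Matrix.scalar (Fin n) c, B] ⟨c, rfl, rfl⟩
    rw [← e1, ← e2]

end Pool.Agent.Results.MP_5d2531_al.TwoVariableNormalForm
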